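import Pool.Agent.Lib.MP_8c874d_gt.Meas

set_option autoImplicit false

/-!
MP_8c874d_gt: a ZFC counterexample for Q1 and Q2. Text: /team-store/MP_8c874d_gt_ZFC.md
-/

namespace Pool.Agent.Lib.MP_8c874d_gt.Zfc

open Set

/-- `Ω` is a well-order of type `ω₁`. -/
structure Om1 (Ω : Type) [LinearOrder Ω] : Prop where
  wf : WellFoundedLT Ω
  init : ∀ x : Ω, (Set.Iic x).Countable
  bdd : ∀ s : Set Ω, s.Countable → ∃ x, ∀ y ∈ s, y < x

section order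
variable {Ω : Type} [LinearOrder Ω]

/-- `d` is not minimal and closed under `f`. -/
def FCl (f : Ω → Ω) (d : Ω) : Prop := (∃ x, x < d) ∧ ∀ x, x < d → f x < d

/-- stationary sets -/
def Stat (A : Set Ω) : Prop := ∀ f : Ω → Ω, ∃ d ∈ A, FCl f d

/-- `z` is a limit point of `c`. -/
def Lim (c : Set Ω) (z : Ω) : Prop := (∃ x, x < z) ∧ ∀ x, x < z → ∃ y ∈ c, x < y ∧ y < z

/-- closed sets -/
def Cl (c : Set Ω) : Prop := ∀ z, Lim c z → z ∈ c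

end order

/-- Vertex systems: `lev` level, `fib` fibre, `c` a closed subset of `A` with largest element
`lev`, `dn v` the set of the lower neighbours of `v`, `Yl v` a set of subsets of `dn v`. -/
structure VS (Ω : Type) [LinearOrder Ω] (A : Set Ω) (V : Type) where
  lev : V → Ω
  fib : V → ℕ
  c : V → Set Ω
  dn : V → Set V
  Yl : V → Set (Set V)
  c_lev : ∀ v, lev v ∈ c v
  c_sub : ∀ v, c v ⊆ A
  c_le : ∀ v, ∀ x ∈ c v, x ≤ lev v
  c_cl : ∀ v, Cl (c v)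
  dn_countable : ∀ v, (dn v).Countable
  dn_lt : ∀ v, ∀ u ∈ dn v, lev u < lev v
  dn_mem : ∀ v, ∀ u ∈ dn v, lev u ∈ c v
  dn_tail : ∀ v, ∀ u ∈ dn v, ∃ γ, γ < lev u ∧ ∀ x ∈ c u, γ < x → x ∈ c v
  Yl_sub : ∀ v, ∀ z ∈ Yl v, z ⊆ dn v
  ext : ∀ (k : ℕ) (d : Ω) (c' : Set Ω) (g : Set V) (Z : Set (Set V)),
    d ∈ c' → c' ⊆ A → (∀ x ∈ c', x ≤ d) → Cl c' → g.Countable →
    (∀ u ∈ g, lev u < d ∧ lev u ∈ c' ∧ ∃ γ, γ < lev u ∧ ∀ x ∈ c u, γ < x → x ∈ c') →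
    ∃ v, fib v = k ∧ lev v = d ∧ c v = c' ∧ dn v = g ∧ ∀ z, z ⊆ g → (z ∈ Yl v ↔ z ∈ Z)

/-- Tasks. -/
inductive Task (Ω V : Type) : Type
  | clo (φ : Ω → Ω) : Task Ω V
  | fam (H : Ω → Set V) : Task Ω V
  | pair (u : V) (H : ℕ → Set V) : Task Ω V
  | loc (k : ℕ) (Z : Ω → Set (Set V)) : Task Ω V

/-- Codes of open sets. -/
abbrev Code (V : Type) : Type := Set (Finset V × Finset V)

/-- The open set with code `Q` (as a set of sets of vertices). -/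
def inO {V : Type} (Q : Code V) (z : Set V) : Prop :=
  ∃ p ∈ Q, (p.1 : Set V) ⊆ z ∧ ∀ v ∈ p.2, v ∉ z

/-- tests whose local tasks come from `D` -/
def DTest {Ω V : Type} (D : ℕ → Set (Ω → Set (Set V))) (T : Finset V → ℕ → Task Ω V) : Prop :=
  ∀ h n k Z, T h n = Task.loc k Z → Z ∈ D k

namespace VS

variable {Ω V : Type} [LinearOrder Ω] {A : Set Ω} (S : VS Ω A V)

/-- adjacency -/
def Adj (u v : V) : Prop := u ∈ S.dn v ∨ v ∈ S.dn u

/-- cliques -/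
def Clq (z : Set V) : Prop := ∀ u ∈ z, ∀ v ∈ z, u ≠ v → S.Adj u v

/-- admissible sets: cliques which are empty or have a top -/
def Adm (z : Set V) : Prop := S.Clq z ∧ (z = ∅ ∨ ∃ w ∈ z, ∀ u ∈ z, u ≠ w → u ∈ S.dn w)

/-- all levels in `z` are above `γ` -/
def Abv (γ : Ω) (z : Set V) : Prop := ∀ v ∈ z, γ < S.lev v

/-- satisfaction of the basic tasks by a pair `(d, g)` -/
def SatB (d : Ω) (g : Set V) : Task Ω V → Prop
  | Task.clo φ => ∀ x, x < d → φ x < d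
  | Task.fam H => (∀ x, S.Adm (H x) ∧ S.Abv x (H x)) →
      ∀ γ, γ < d → ∃ x, γ ≤ x ∧ x < d ∧ H x ⊆ g
  | Task.pair u H => (∀ n, H n ⊆ S.dn u) → (∀ γ, γ < S.lev u → ∃ n, S.Abv γ (H n)) →
      u ∈ g → ∀ γ, γ < S.lev u → ∃ n, H n ⊆ g ∧ S.Abv γ (H n)
  | Task.loc _ _ => True

/-- satisfaction of the local tasks by a vertex -/
def SatL (a : V) : Task Ω V → Prop
  | Task.loc k Z => S.fib a = k → ∀ z ∈ S.Yl a, z ∈ Z (S.lev a)
  | _ => True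

/-- generic vertices for a test `T` -/
def Gen (T : Finset V → ℕ → Task Ω V) (a : V) : Prop :=
  ∀ h : Finset V, (h : Set V) ⊆ S.dn a → ∀ n, S.SatB (S.lev a) (S.dn a) (T h n) ∧ S.SatL a (T h n)

/-- acceptance -/
def Acc (D : ℕ → Set (Ω → Set (Set V))) (P : V → Prop) (Q : Code V) (z : Set V) : Prop :=
  S.Adm z ∧ ∀ T, DTest D T → ∃ F : Finset V, S.Clq F ∧
    (∀ v ∈ F, S.Gen T v ∧ P v ∧ z ⊆ S.dn v) ∧ inO Q (z ∪ F)

/-- the local task attached to the code `Q` at the fibre `k` -/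
def ZZ (D : ℕ → Set (Ω → Set (Set V))) (k : ℕ) (Q : Code V) : Ω → Set (Set V) :=
  fun d => {z | ¬ S.Acc D (fun v => S.fib v < k) Q ∅ ∨
    (∃ w ∈ z, ¬ S.Acc D (fun v => S.fib v < k) Q (z ∩ insert w (S.dn w))) ∨
    ∃ p ∈ Q, (p.1 : Set V) ⊆ z ∧ (∀ v ∈ p.2, v ∉ z) ∧ ∀ v ∈ p.2, S.lev v < d}

/-- the families of local tasks at the fibres `j < k` -/
def Dlt : ℕ → ℕ → Set (Ω → Set (Set V))
  | 0 => fun _ => ∅
  | k + 1 => fun j => if j = k then {Z | ∃ Q : Code V, Z = S.ZZ (Dlt k) k Q} else Dlt k j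

/-- the family of all local tasks -/
def DD (k : ℕ) : Set (Ω → Set (Set V)) := {Z | ∃ Q : Code V, Z = S.ZZ (S.Dlt k) k Q}

/-- null codes -/
def Null (N : Code V) : Prop := ¬ S.Acc S.DD (fun _ => True) N ∅

end VS

end Pool.Agent.Lib.MP_8c874d_gt.Zfc
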