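import Pool.Agent.Lib.MP_8c874d_gt.Zfc.Spec

section
set_option autoImplicit false

/-! Basic API for vertex systems. -/

namespace Pool.Agent.Lib.MP_8c874d_gt.Zfc

open Set

section order
variable {Ω : Type} [LinearOrder Ω]

theorem Om1.bdd_fin (hΩ : Om1 Ω) {ι : Type} [Countable ι] (f : ι → Ω) : ∃ x, ∀ i, f i < x := by
  obtain ⟨x, hx⟩ := hΩ.bdd (range f) (countable_range f)
  exact ⟨x, fun i => hx _ ⟨i, rfl⟩⟩

theorem exists_below {ι : Type} (f : ι → Ω) (d : Ω) (hd : ∃ x, x < d) (G : Finset ι) :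
    ∃ γ, γ < d ∧ ∀ v ∈ G, f v < d → f v ≤ γ := by
  classical
  induction G using Finset.induction_on with
  | empty =>
    obtain ⟨x, hx⟩ := hd
    exact ⟨x, hx, fun v hv => absurd hv (Finset.notMem_empty v)⟩
  | insert a s _ ih =>
    obtain ⟨γ, hγ, h⟩ := ih
    by_cases ha : f a < d
    · refine ⟨max γ (f a), max_lt hγ ha, fun v hv hvd => ?_⟩
      rcases Finset.mem_insert.1 hv with rfl | hv
      · exact le_max_right _ _
      · exact (h v hv hvd).trans (le_max_left _ _)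
    · refine ⟨γ, hγ, fun v hv hvd => ?_⟩
      rcases Finset.mem_insert.1 hv with rfl | hv
      · exact absurd hvd ha
      · exact h v hv hvd

theorem exists_test {Ω V : Type} (C : Finset V → Set (Task Ω V)) (hC : ∀ h, (C h).Countable)
    (hne : ∀ h, (C h).Nonempty) : ∃ T : Finset V → ℕ → Task Ω V, ∀ h, C h = range (T h) := by
  have h1 : ∀ h, ∃ t : ℕ → Task Ω V, C h = range t := fun h => (hC h).exists_eq_range (hne h)
  choose T hT using h1
  exact ⟨T, hT⟩

end order

namespace VS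

variable {Ω V : Type} [LinearOrder Ω] {A : Set Ω} (S : VS Ω A V)

theorem Adj.symm {S : VS Ω A V} {u v : V} (h : S.Adj u v) : S.Adj v u := Or.symm h

theorem adj_lev {S : VS Ω A V} {u v : V} (h : S.Adj u v) : S.lev u ≠ S.lev v := by
  rcases h with h | h
  · exact (S.dn_lt v u h).ne
  · exact (S.dn_lt u v h).ne'

theorem Clq.mono {S : VS Ω A V} {z z' : Set V} (h : S.Clq z) (hs : z' ⊆ z) : S.Clq z' :=
  fun u hu v hv huv => h u (hs hu) v (hs hv) huv

theorem Clq.dn {S : VS Ω A V} {z : Set V} (h : S.Clq z) {u v : V} (hu : u ∈ z) (hv : v ∈ z)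
    (huv : S.lev u < S.lev v) : u ∈ S.dn v := by
  rcases h u hu v hv (fun h => huv.ne (by rw [h])) with h1 | h1
  · exact h1
  · exact absurd (S.dn_lt _ _ h1) (not_lt.2 huv.le)

theorem Clq.inj {S : VS Ω A V} {z : Set V} (h : S.Clq z) {u v : V} (hu : u ∈ z) (hv : v ∈ z)
    (huv : S.lev u = S.lev v) : u = v := by
  by_contra hne
  exact adj_lev (h u hu v hv hne) huv

theorem adm_empty : S.Adm ∅ := ⟨fun u hu => absurd hu (notMem_empty u), Or.inl rfl⟩

theorem clq_insert {S : VS Ω A V} {z : Set V} (hz : S.Clq z) {a : V} (ha : z ⊆ S.dn a) :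
    S.Clq (insert a z) := by
  intro u hu v hv huv
  rcases hu with rfl | hu
  · rcases hv with rfl | hv
    · exact absurd rfl huv
    · exact Or.inr (ha hv)
  · rcases hv with rfl | hv
    · exact Or.inl (ha hu)
    · exact hz u hu v hv huv

theorem adm_insert {S : VS Ω A V} {z : Set V} (hz : S.Clq z) {a : V} (ha : z ⊆ S.dn a) :
    S.Adm (insert a z) := by
  refine ⟨clq_insert hz ha, Or.inr ⟨a, mem_insert _ _, fun u hu hua => ?_⟩⟩
  rcases hu with rfl | hu
  · exact absurd rfl hua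
  · exact ha hu

theorem Adm.countable {S : VS Ω A V} {z : Set V} (hz : S.Adm z) : z.Countable := by
  rcases hz.2 with rfl | ⟨w, hw, h⟩
  · exact countable_empty
  · refine ((S.dn_countable w).insert w).mono fun u hu => ?_
    by_cases huw : u = w
    · exact Or.inl huw
    · exact Or.inr (h u hu huw)

theorem clq_union {S : VS Ω A V} {z y : Set V} (hz : S.Clq z) (hy : S.Clq y)
    (hzy : ∀ v ∈ y, z ⊆ S.dn v) : S.Clq (z ∪ y) := by
  intro u hu v hv huv
  rcases hu with hu | hu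
  · rcases hv with hv | hv
    · exact hz u hu v hv huv
    · exact Or.inl (hzy v hv hu)
  · rcases hv with hv | hv
    · exact Or.inr (hzy u hu hv)
    · exact hy u hu v hv huv

/-- a nonempty finite clique has a top -/
theorem exists_top {S : VS Ω A V} (F : Finset V) (hF : S.Clq (F : Set V)) (hne : F.Nonempty) :
    ∃ w ∈ F, ∀ u ∈ F, u ≠ w → u ∈ S.dn w := by
  obtain ⟨w, hw, h⟩ := Finset.exists_max_image F S.lev hne
  refine ⟨w, hw, fun u hu huw => ?_⟩
  exact hF.dn hu hw (lt_of_le_of_ne (h u hu) fun h2 => huw (hF.inj hu hw h2))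

theorem adm_finset {S : VS Ω A V} (F : Finset V) (hF : S.Clq (F : Set V)) : S.Adm (F : Set V) := by
  rcases F.eq_empty_or_nonempty with rfl | hne
  · rw [Finset.coe_empty]
    exact adm_empty S
  · obtain ⟨w, hw, h⟩ := exists_top F hF hne
    exact ⟨hF, Or.inr ⟨w, hw, h⟩⟩

theorem adm_union {S : VS Ω A V} {z : Set V} (hz : S.Adm z) (F : Finset V)
    (hF : S.Clq (F : Set V)) (hzF : ∀ v ∈ F, z ⊆ S.dn v) : S.Adm (z ∪ F) := by
  refine ⟨clq_union hz.1 hF hzF, ?_⟩
  rcases F.eq_empty_or_nonempty with rfl | hne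
  · rw [Finset.coe_empty, union_empty]
    exact hz.2
  · obtain ⟨w, hw, h⟩ := exists_top F hF hne
    refine Or.inr ⟨w, Or.inr hw, fun u hu huw => ?_⟩
    rcases hu with hu | hu
    · exact hzF w hw hu
    · exact h u hu huw

theorem adm_init {S : VS Ω A V} {y : Set V} (hy : S.Clq y) {w : V} (hw : w ∈ y) :
    S.Adm (y ∩ insert w (S.dn w)) := by
  refine ⟨hy.mono inter_subset_left, Or.inr ⟨w, ⟨hw, mem_insert _ _⟩, fun u hu huw => ?_⟩⟩
  rcases hu.2 with rfl | h
  · exact absurd rfl huw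
  · exact h

theorem adm_sub {S : VS Ω A V} {z : Set V} (hz : S.Adm z) (hne : z.Nonempty) :
    ∃ w ∈ z, ∀ u ∈ z, u ≠ w → u ∈ S.dn w := by
  rcases hz.2 with rfl | h
  · exact absurd hne not_nonempty_empty
  · exact h

end VS

end Pool.Agent.Lib.MP_8c874d_gt.Zfc
end

section
set_option autoImplicit false

namespace Pool.Agent.Lib.MP_8c874d_gt.Zfc

open Set

namespace BLM

theorem exists_seq {σ : Type} (R : ℕ → σ → σ → Prop) (hR : ∀ n s, ∃ s', R n s s') (s0 : σ) :
    ∃ f : ℕ → σ, f 0 = s0 ∧ ∀ n, R n (f n) (f (n + 1)) := by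
  choose F hF using hR
  exact ⟨fun n => Nat.rec s0 (fun n s => F n s) n, rfl, fun n => hF n _⟩

variable {Ω V : Type} [LinearOrder Ω] {A : Set Ω}

/-- relevant property of the chosen pair -/
def Good (S : VS Ω A V) (T : Finset V → ℕ → Task Ω V) (Q : Code V) (z : Set V) (x : Ω)
    (F : Finset V) (p : Finset V × Finset V) : Prop :=
  S.Clq F ∧ (∀ v ∈ F, S.Gen T v ∧ x < S.lev v ∧ z ⊆ S.dn v) ∧ p ∈ Q ∧
    (p.1 : Set V) ⊆ z ∪ F ∧ ∀ v ∈ p.2, v ∉ z ∪ F

theorem exists_good (hTR : SpecTR) (S : VS Ω A V) (hA : ∀ a ∈ A, ∃ x, x < a)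
    (T : Finset V → ℕ → Task Ω V) (hT : DTest S.DD T) (k : ℕ) (Q : Code V) (z : Set V)
    (h : S.Acc (S.Dlt k) (fun v => S.fib v < k) Q z) (x : Ω) :
    ∃ F p, Good S T Q z x F p := by
  obtain ⟨T', hT'1, hT'2⟩ := (hTR Ω A V S).2 T hT k
  let T'' : Finset V → ℕ → Task Ω V := fun h n => match n with
    | 0 => Task.clo (fun _ => x)
    | n + 1 => T' h n
  have hT'' : DTest (S.Dlt k) T'' := by
    intro h n j Z hZ
    rcases n with _ | n
    · exact absurd hZ (by simp [T''])
    · exact hT'1 h n j Z hZ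
  obtain ⟨F, hF1, hF2, p, hp, hp1, hp2⟩ := h.2 T'' hT''
  refine ⟨F, p, hF1, fun v hv => ⟨?_, ?_, (hF2 v hv).2.2⟩, hp, hp1, hp2⟩
  · apply hT'2 v (hF2 v hv).2.1
    intro h hh n
    exact (hF2 v hv).1 h hh (n + 1)
  · obtain ⟨y, hy⟩ := hA _ (S.c_sub v (S.c_lev v))
    exact ((hF2 v hv).1 ∅ (by simp) 0).1 y hy

/-- good states -/
def St (S : VS Ω A V) (T : Finset V → ℕ → Task Ω V) (y0 : Set V) (d : Ω) (g : Set V)
    (s : Finset V × Ω) : Prop :=
  (s.1 : Set V) ⊆ g ∧ s.2 < d ∧ S.Adm (y0 ∪ s.1) ∧ ∀ v ∈ s.1, S.Gen T v ∧ y0 ⊆ S.dn v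

/-- the relation between consecutive states -/
def Rl (S : VS Ω A V) (k : ℕ) (y0 : Set V) (d : Ω) (Q : Code V) (s s' : Finset V × Ω) : Prop :=
  s.1 ⊆ s'.1 ∧ s.2 ≤ s'.2 ∧ (∀ v ∈ s'.1, v ∉ s.1 → s.2 < S.lev v ∧ y0 ∪ s.1 ⊆ S.dn v) ∧
    (S.Acc (S.Dlt k) (fun v => S.fib v < k) Q (y0 ∪ s.1) →
      ∃ q ∈ Q, (q.1 : Set V) ⊆ y0 ∪ s'.1 ∧ (∀ v ∈ q.2, v ∉ y0 ∪ s'.1) ∧
        ∀ v ∈ q.2, S.lev v < d ∧ S.lev v < s'.2)

theorem countable_fin {g : Set V} (hg : g.Countable) :
    {p : Finset V × ℕ | (p.1 : Set V) ⊆ g}.Countable := by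
  have h1 : {F : Finset V | (F : Set V) ⊆ g}.Countable := countable_finsets hg
  refine (h1.prod (countable_univ (α := ℕ))).mono ?_
  intro p hp
  exact ⟨hp, mem_univ _⟩

end BLM

open BLM in
theorem specBL (hMN : SpecMN) (hMC : SpecMC) (hTR : SpecTR) : SpecBL := by
  classical
  intro Ω _ A V S hΩ hSt hA T hT y0 hy0 hy0G k
  -- the chosen finite sets
  have h1 : ∀ (Q : Code V) (z : Set V) (x : Ω), ∃ (F : Finset V) (p : Finset V × Finset V),
      S.Acc (S.Dlt k) (fun v => S.fib v < k) Q z → Good S T Q z x F p := by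
    intro Q z x
    by_cases h : S.Acc (S.Dlt k) (fun v => S.fib v < k) Q z
    · obtain ⟨F, p, h2⟩ := exists_good hTR S hA T hT k Q z h x
      exact ⟨F, p, fun _ => h2⟩
    · exact ⟨∅, (∅, ∅), fun h' => absurd h' h⟩
  choose F p hFp using h1
  -- bounds for the levels
  have h2 : ∀ G : Finset V, ∃ x, ∀ v ∈ G, S.lev v < x := by
    intro G
    obtain ⟨x, hx⟩ := hΩ.bdd_fin (fun v : G => S.lev v.1)
    exact ⟨x, fun v hv => hx ⟨v, hv⟩⟩
  choose bd hbd using h2
  -- the codes
  have h3 : ∀ (h : Finset V) (n : ℕ), ∃ Q : Code V, ∀ Z, T h n = Task.loc k Z →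
      Z = S.ZZ (S.Dlt k) k Q := by
    intro h n
    by_cases hex : ∃ Z, T h n = Task.loc k Z
    · obtain ⟨Z, hZ⟩ := hex
      obtain ⟨Q, hQ⟩ := hT h n k Z hZ
      refine ⟨Q, fun Z' hZ' => ?_⟩
      rw [hZ] at hZ'
      injection hZ' with h4 h5
      rw [← h5]
      exact hQ
    · exact ⟨∅, fun Z hZ => absurd ⟨Z, hZ⟩ hex⟩
  choose qq hqq using h3
  -- the basic tasks
  let C : Finset V → Set (Task Ω V) := fun h => range (T h) ∪
    ⋃ (h' : {h' // h' ∈ h.powerset}) (h'' : {h'' // h'' ∈ h.powerset}) (n : ℕ),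
      ({Task.fam (fun x => (F (qq h''.1 n) (y0 ∪ (h'.1 : Set V)) x : Set V)),
        Task.clo (fun x => bd (p (qq h''.1 n) (y0 ∪ (h'.1 : Set V)) x).2)} : Set (Task Ω V))
  have hCc : ∀ h, (C h).Countable := fun h => (countable_range _).union
    (countable_iUnion fun h' => countable_iUnion fun h'' => countable_iUnion fun n =>
      (countable_singleton _).insert _)
  obtain ⟨B, hB⟩ := exists_test C hCc (fun h => ⟨T h 0, Or.inl ⟨0, rfl⟩⟩)
  obtain ⟨d, N, hdA, hd0, hy0N, hN⟩ := hMN Ω A V S hΩ hSt B y0 hy0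
  obtain ⟨c, g, ⟨hc1, hc2, hc3, hc4⟩, hgc, hg3, hy0g, hsat0⟩ :=
    hMC Ω A V S hΩ hA B y0 hy0 d N hdA hd0 hy0N hN
  have hsat : ∀ h : Finset V, (h : Set V) ⊆ g → ∀ t ∈ C h, S.SatB d g t := by
    intro h hh t ht
    rw [hB] at ht
    obtain ⟨n, rfl⟩ := ht
    exact hsat0 h hh n
  -- enumeration of the codes
  obtain ⟨e, he⟩ := (countable_fin hgc).exists_eq_range ⟨(∅, 0), by simp⟩
  have heg : ∀ n, ((e n).1 : Set V) ⊆ g := fun n => he.symm.subset ⟨n, rfl⟩
  -- steps
  have hstep : ∀ (n : ℕ) (s : {s : Finset V × Ω // St S T y0 d g s}),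
      ∃ s' : {s : Finset V × Ω // St S T y0 d g s},
        Rl S k y0 d (qq (e n).1 (e n).2) s.1 s'.1 := by
    rintro n ⟨⟨h, r⟩, hs1, hs2, hs3, hs4⟩
    by_cases hacc : S.Acc (S.Dlt k) (fun v => S.fib v < k) (qq (e n).1 (e n).2) (y0 ∪ h)
    · have hgood := fun x => hFp (qq (e n).1 (e n).2) (y0 ∪ h) x hacc
      have hhe : ((h ∪ (e n).1 : Finset V) : Set V) ⊆ g := by
        rw [Finset.coe_union]
        exact union_subset hs1 (heg n)
      have hfam := hsat _ hhe (Task.fam (fun x => (F (qq (e n).1 (e n).2) (y0 ∪ (h : Set V)) x :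
          Set V))) (Or.inr (by
        simp only [mem_iUnion]
        exact ⟨⟨h, Finset.mem_powerset.2 Finset.subset_union_left⟩,
          ⟨(e n).1, Finset.mem_powerset.2 Finset.subset_union_right⟩, (e n).2, Or.inl rfl⟩))
      have hclo := hsat _ hhe (Task.clo (fun x => bd (p (qq (e n).1 (e n).2)
          (y0 ∪ (h : Set V)) x).2)) (Or.inr (by
        simp only [mem_iUnion]
        exact ⟨⟨h, Finset.mem_powerset.2 Finset.subset_union_left⟩,
          ⟨(e n).1, Finset.mem_powerset.2 Finset.subset_union_right⟩, (e n).2, Or.inr rfl⟩))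
      obtain ⟨x, hx1, hx2, hx3⟩ := hfam (fun x => ⟨VS.adm_finset _ (hgood x).1,
        fun v hv => ((hgood x).2.1 v hv).2.1⟩) r hs2
      obtain ⟨hG1, hG2, hG3, hG4, hG5⟩ := hgood x
      have hx4 := hclo x hx2
      refine ⟨⟨(h ∪ F (qq (e n).1 (e n).2) (y0 ∪ h) x,
        max r (bd (p (qq (e n).1 (e n).2) (y0 ∪ h) x).2)), ?_, ?_, ?_, ?_⟩, ?_, ?_, ?_, ?_⟩
      · rw [Finset.coe_union]
        exact union_subset hs1 hx3
      · exact max_lt hs2 hx4
      · show S.Adm (y0 ∪ ((h ∪ F (qq (e n).1 (e n).2) (y0 ∪ h) x : Finset V) : Set V))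
        rw [Finset.coe_union, ← union_assoc]
        exact VS.adm_union hs3 _ hG1 fun v hv => (hG2 v hv).2.2
      · intro v hv
        rcases Finset.mem_union.1 hv with hv | hv
        · exact hs4 v hv
        · exact ⟨(hG2 v hv).1, subset_union_left.trans (hG2 v hv).2.2⟩
      · exact Finset.subset_union_left
      · exact le_max_left _ _
      · intro v hv hv2
        rcases Finset.mem_union.1 hv with hv | hv
        · exact absurd hv hv2
        · exact ⟨lt_of_le_of_lt hx1 (hG2 v hv).2.1, (hG2 v hv).2.2⟩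
      · intro _
        refine ⟨p (qq (e n).1 (e n).2) (y0 ∪ h) x, hG3, ?_, ?_, ?_⟩
        · show _ ⊆ y0 ∪ ((h ∪ F (qq (e n).1 (e n).2) (y0 ∪ h) x : Finset V) : Set V)
          rw [Finset.coe_union, ← union_assoc]
          exact hG4
        · show ∀ v ∈ _, v ∉ y0 ∪ ((h ∪ F (qq (e n).1 (e n).2) (y0 ∪ h) x : Finset V) : Set V)
          rw [Finset.coe_union, ← union_assoc]
          exact hG5
        · intro v hv
          exact ⟨(hbd _ v hv).trans hx4, lt_of_lt_of_le (hbd _ v hv) (le_max_right _ _)⟩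
    · exact ⟨⟨(h, r), hs1, hs2, hs3, hs4⟩, Finset.Subset.refl _, le_rfl,
        fun v hv hv2 => absurd hv hv2, fun h' => absurd h' hacc⟩
  obtain ⟨r0, hr0⟩ := hd0
  obtain ⟨f, hf0, hf⟩ := exists_seq (fun n (s s' : {s : Finset V × Ω // St S T y0 d g s}) =>
    Rl S k y0 d (qq (e n).1 (e n).2) s.1 s'.1) hstep
    ⟨(∅, r0), by simp, hr0, by simpa using hy0, fun v hv => absurd hv (Finset.notMem_empty v)⟩
  let H : ℕ → Set V := fun n => ((f n).1.1 : Set V)
  have hHmono : Monotone H := monotone_nat_of_le_succ fun n => by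
    exact_mod_cast (hf n).1
  have hrmono : Monotone (fun n => (f n).1.2) := monotone_nat_of_le_succ fun n => (hf n).2.1
  -- elements added later
  have hlate : ∀ n m, n ≤ m → ∀ v ∈ H m, v ∉ H n → (f n).1.2 < S.lev v ∧ y0 ∪ H n ⊆ S.dn v := by
    intro n m hnm
    induction m, hnm using Nat.le_induction with
    | base => exact fun v hv hv2 => absurd hv hv2
    | succ m hm ih =>
      intro v hv hv2
      by_cases hv3 : v ∈ H m
      · exact ih v hv3 hv2
      · obtain ⟨h4, h5⟩ := (hf m).2.2.1 v hv hv3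
        exact ⟨lt_of_le_of_lt (hrmono hm) h4,
          (union_subset_union_right y0 (hHmono hm)).trans h5⟩
  let z : Set V := y0 ∪ ⋃ n, H n
  have hzn : ∀ n, y0 ∪ H n ⊆ z := fun n => union_subset_union_right y0 (subset_iUnion H n)
  have hclq : S.Clq z := by
    intro u hu v hv huv
    have h4 : ∃ n, u ∈ y0 ∪ H n := by
      rcases hu with hu | hu
      · exact ⟨0, Or.inl hu⟩
      · obtain ⟨n, hn⟩ := mem_iUnion.1 hu
        exact ⟨n, Or.inr hn⟩
    have h5 : ∃ n, v ∈ y0 ∪ H n := by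
      rcases hv with hv | hv
      · exact ⟨0, Or.inl hv⟩
      · obtain ⟨n, hn⟩ := mem_iUnion.1 hv
        exact ⟨n, Or.inr hn⟩
    obtain ⟨m, hm⟩ := h4
    obtain ⟨n, hn⟩ := h5
    exact (f (max m n)).2.2.2.1.1 u (union_subset_union_right y0 (hHmono (le_max_left m n)) hm)
      v (union_subset_union_right y0 (hHmono (le_max_right m n)) hn) huv
  have hzG : ∀ v ∈ z, S.Gen T v := by
    rintro v (hv | hv)
    · exact hy0G v hv
    · obtain ⟨n, hn⟩ := mem_iUnion.1 hv
      exact ((f n).2.2.2.2 v hn).1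
  have hzy : ∀ v ∈ z, v ∉ y0 → y0 ⊆ S.dn v := by
    rintro v (hv | hv) hv2
    · exact absurd hv hv2
    · obtain ⟨n, hn⟩ := mem_iUnion.1 hv
      exact ((f n).2.2.2.2 v hn).2
  have hzg : z ⊆ g := union_subset hy0g (iUnion_subset fun n => (f n).2.1)
  have hlate' : ∀ n, ∀ v ∈ z, v ∉ y0 ∪ H n → (f n).1.2 < S.lev v ∧ y0 ∪ H n ⊆ S.dn v := by
    rintro n v (hv | hv) hv2
    · exact absurd (Or.inl hv) hv2
    · obtain ⟨m, hm⟩ := mem_iUnion.1 hv
      refine hlate n (max n m) (le_max_left _ _) v (hHmono (le_max_right _ _) hm) ?_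
      exact fun h => hv2 (Or.inr h)
  have hzZ : ∀ n, z ∈ S.ZZ (S.Dlt k) k (qq (e n).1 (e n).2) d := by
    intro n
    by_cases hacc : S.Acc (S.Dlt k) (fun v => S.fib v < k) (qq (e n).1 (e n).2) (y0 ∪ H n)
    · obtain ⟨q, hq, hq1, hq2, hq3⟩ := (hf n).2.2.2 hacc
      refine Or.inr (Or.inr ⟨q, hq, hq1.trans (hzn (n + 1)), fun v hv hvz => ?_,
        fun v hv => (hq3 v hv).1⟩)
      exact absurd (hlate' (n + 1) v hvz (hq2 v hv)).1 (not_lt.2 (hq3 v hv).2.le)
    · rcases eq_empty_or_nonempty (y0 ∪ H n) with h0 | h0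
      · left
        rw [← h0]
        exact hacc
      · right
        left
        obtain ⟨w, hw, hw2⟩ := VS.adm_sub (f n).2.2.2.1 h0
        refine ⟨w, hzn n hw, ?_⟩
        have h6 : z ∩ insert w (S.dn w) = y0 ∪ H n := by
          apply Subset.antisymm
          · rintro u ⟨hu1, hu2⟩
            by_contra hu3
            have h7 := (hlate' n u hu1 hu3).2 hw
            rcases hu2 with rfl | hu2
            · exact hu3 hw
            · exact lt_asymm (S.dn_lt _ _ h7) (S.dn_lt _ _ hu2)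
          · intro u hu
            refine ⟨hzn n hu, ?_⟩
            by_cases huw : u = w
            · exact Or.inl huw
            · exact Or.inr (hw2 u hu huw)
        rw [h6]
        exact hacc
  obtain ⟨a, ha1, ha2, ha3, ha4, ha5⟩ := S.ext k d c g
    {z' | ∀ n, z' ∈ S.ZZ (S.Dlt k) k (qq (e n).1 (e n).2) d} hc1 hc2 hc3 hc4 hgc hg3
  refine ⟨z, a, subset_union_left, hclq, hzG, hzy, ha4 ▸ hzg, ha1, ?_, (ha5 z hzg).2 hzZ⟩
  intro h hh n
  rw [ha4] at hh
  refine ⟨?_, ?_⟩
  · rw [ha2, ha4]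
    exact hsat h hh _ (Or.inl ⟨n, rfl⟩)
  · rcases hTe : T h n with φ | H' | ⟨u, H'⟩ | ⟨j, Z⟩
    · trivial
    · trivial
    · trivial
    · intro hj z' hz'
      have hjk : j = k := hj.symm.trans ha1
      subst hjk
      have hz'g : z' ⊆ g := ha4 ▸ S.Yl_sub a z' hz'
      have h8 := (ha5 z' hz'g).1 hz'
      obtain ⟨m, hm⟩ := he.subset (show (h, n) ∈ {p : Finset V × ℕ | (p.1 : Set V) ⊆ g} from hh)
      have h9 := h8 m
      rw [hm] at h9
      rw [ha2, hqq h n Z hTe]
      exact h9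

end Pool.Agent.Lib.MP_8c874d_gt.Zfc
end

section
set_option autoImplicit false

/-!
MP_8c874d_gt, module CB: countably many tests can be combined.
-/

namespace Pool.Agent.Lib.MP_8c874d_gt.Zfc

theorem specCB : SpecCB := by
  intro Ω _ A V S T
  refine ⟨fun h n => T (Nat.unpair n).1 h (Nat.unpair n).2, ?_, ?_⟩
  · intro D hD h n k Z hZ
    exact hD (Nat.unpair n).1 h (Nat.unpair n).2 k Z hZ
  · intro a
    constructor
    · intro hG i h hh n
      have := hG h hh (Nat.pair i n)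
      simpa only [Nat.unpair_pair] using this
    · intro hG h hh n
      exact hG (Nat.unpair n).1 h hh (Nat.unpair n).2

end Pool.Agent.Lib.MP_8c874d_gt.Zfc
end

section
set_option autoImplicit false

/-!
MP_8c874d_gt, ZFC counterexample, module CQ: cliques are countable.
-/

namespace Pool.Agent.Lib.MP_8c874d_gt.Zfc

open Set

theorem specCQ : SpecCQ := by
  intro Ω _ A V S hΩ hA z hz
  by_contra hcount
  -- levels are injective on `z`
  have hinj : InjOn S.lev z := by
    intro u hu v hv huv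
    by_contra hne
    rcases hz u hu v hv hne with h | h
    · exact absurd huv (ne_of_lt (S.dn_lt v u h))
    · exact absurd huv.symm (ne_of_lt (S.dn_lt u v h))
  -- levels are unbounded
  have hunb : ∀ x : Ω, ∃ w ∈ z, x < S.lev w := by
    intro x
    by_contra hno
    push Not at hno
    apply hcount
    apply Set.countable_of_injective_of_countable_image hinj
    apply (hΩ.init x).mono
    rintro _ ⟨w, hw, rfl⟩
    exact hno w hw
  choose w hwz hw using hunb
  obtain ⟨d, hdA, ⟨x0, hx0⟩, hd⟩ := hA (fun x => S.lev (w x))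
  apply hdA
  apply S.c_sub (w d)
  apply S.c_cl (w d)
  refine ⟨⟨x0, hx0⟩, fun x hx => ?_⟩
  have h1 : S.lev (w x) < d := hd x hx
  have h2 : S.lev (w x) < S.lev (w d) := h1.trans (hw d)
  have hne : w x ≠ w d := by
    intro h
    rw [h] at h2
    exact lt_irrefl _ h2
  rcases hz _ (hwz x) _ (hwz d) hne with h | h
  · exact ⟨S.lev (w x), S.dn_mem _ _ h, hw x, h1⟩
  · exact absurd (S.dn_lt _ _ h) (not_lt_of_gt h2)

end Pool.Agent.Lib.MP_8c874d_gt.Zfc
end

section
set_option autoImplicit false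

/-! Module FN: the final assembly. -/

namespace Pool.Agent.Lib.MP_8c874d_gt.Zfc

open Set

namespace FNM

variable {Ω V : Type} [LinearOrder Ω] {A : Set Ω} (S : VS Ω A V)

/-- the support of a point -/
def sp (x : V → Bool) : Set V := {v | x v = true}

/-- the space of cliques -/
def XX : Set (V → Bool) := {x | S.Clq (sp x)}

theorem isClosed_XX : IsClosed (XX S) := by
  have h1 : XX S = ⋂ (u : V) (v : V) (_ : u ≠ v ∧ ¬ S.Adj u v),
      ({x | x u = false} ∪ {x | x v = false}) := by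
    ext x
    simp only [XX, sp, VS.Clq, mem_iInter, mem_union, mem_ofPred_eq]
    constructor
    · rintro h u v ⟨huv, hadj⟩
      by_contra hcon
      push Not at hcon
      have h2 : x u = true := by simpa using hcon.1
      have h3 : x v = true := by simpa using hcon.2
      exact hadj (h u h2 v h3 huv)
    · intro h u hu v hv huv
      by_contra hcon
      rcases h u v ⟨huv, hcon⟩ with h2 | h2
      · rw [h2] at hu
        exact Bool.noConfusion hu
      · rw [h2] at hv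
        exact Bool.noConfusion hv
  rw [h1]
  refine isClosed_iInter fun u => isClosed_iInter fun v => isClosed_iInter fun _ => ?_
  refine IsClosed.union ?_ ?_
  · exact (isClosed_discrete ({false} : Set Bool)).preimage
      (f := fun x : V → Bool => x u) (continuous_apply u)
  · exact (isClosed_discrete ({false} : Set Bool)).preimage
      (f := fun x : V → Bool => x v) (continuous_apply v)

/-- the subspace -/
def YY : Set (XX S) := {x | InY S (sp x.1)}

/-- the family of closed sets -/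
def FF : Set (Set (YY S)) :=
  {K | IsClosed K ∧ ∃ N : Code V, S.Null N ∧ ∀ y : YY S, ¬ inO N (sp y.1.1) → y ∈ K}

theorem null_iff (N : Code V) : S.Null N ↔ ∃ T, DTest S.DD T ∧ ∀ F : Finset V, S.Clq F →
    (∀ v ∈ F, S.Gen T v) → ¬ inO N (F : Set V) := by
  constructor
  · intro h
    by_contra hcon
    push Not at hcon
    apply h
    refine ⟨⟨fun u hu => absurd hu (by simp), Or.inl rfl⟩, fun T hT => ?_⟩
    obtain ⟨F, h1, h2, h3⟩ := hcon T hT
    refine ⟨F, h1, fun v hv => ⟨h2 v hv, trivial, by simp⟩, ?_⟩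
    rwa [empty_union]
  · rintro ⟨T, hT, h⟩ hacc
    obtain ⟨F, h1, h2, h3⟩ := hacc.2 T hT
    rw [empty_union] at h3
    exact h F h1 (fun v hv => (h2 v hv).1) h3

/-- the points of `Y` consisting of generic vertices for the witness avoid a null set -/
theorem notInO {T : Finset V → ℕ → Task Ω V} {N : Code V} (h : ∀ F : Finset V, S.Clq F →
    (∀ v ∈ F, S.Gen T v) → ¬ inO N (F : Set V)) {y : Set V} (hy : S.Clq y)
    (hyT : ∀ v ∈ y, S.Gen T v) : ¬ inO N y := by
  rintro ⟨p, hp, h1, h2⟩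
  exact h p.1 (fun u hu v hv huv => hy u (h1 hu) v (h1 hv) huv) (fun v hv => hyT v (h1 hv))
    ⟨p, hp, Subset.rfl, fun v hv hvp => h2 v hv (h1 hvp)⟩

theorem cip (hΩ : Om1 Ω) (hS : Stat A) (hA : ∀ a ∈ A, ∃ x, x < a) (hCB : SpecCB)
    (hTH : SpecTH) : CIP (FF S) := by
  classical
  intro 𝓢 h𝓢 hc
  have hdef : ∃ (T : Finset V → ℕ → Task Ω V), DTest S.DD T ∧ ∀ K ∈ 𝓢, ∀ y : YY S,
      (∀ v ∈ sp y.1.1, S.Gen T v) → y ∈ K := by
    rcases 𝓢.eq_empty_or_nonempty with h0 | h0
    · refine ⟨fun _ _ => Task.clo id, ?_, ?_⟩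
      · intro h n k Z hZ
        exact absurd hZ (by simp)
      · intro K hK
        rw [h0] at hK
        exact absurd hK (by simp)
    · obtain ⟨f, hf⟩ := hc.exists_eq_range h0
      have h1 : ∀ i : ℕ, ∃ T, DTest S.DD T ∧ ∀ y : YY S,
          (∀ v ∈ sp y.1.1, S.Gen T v) → y ∈ f i := by
        intro i
        obtain ⟨-, N, hN1, hN2⟩ := h𝓢 (show f i ∈ 𝓢 by rw [hf]; exact ⟨i, rfl⟩)
        obtain ⟨T, hT1, hT2⟩ := (null_iff S N).1 hN1
        refine ⟨T, hT1, fun y hy => hN2 y ?_⟩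
        exact notInO S hT2 y.1.2 hy
      choose T hT1 hT2 using h1
      obtain ⟨T', h2, h3⟩ := hCB Ω A V S T
      refine ⟨T', h2 _ hT1, ?_⟩
      intro K hK y hy
      rw [hf] at hK
      obtain ⟨i, rfl⟩ := hK
      exact hT2 i y fun v hv => (h3 v).1 (hy v hv) i
  obtain ⟨T, hT1, hT2⟩ := hdef
  obtain ⟨y, hy1, hy2⟩ := hTH Ω A V S hΩ hS hA T hT1
  have hsp : sp (fun v => decide (v ∈ y)) = y := by
    ext v
    simp [sp]
  refine ⟨⟨⟨fun v => decide (v ∈ y), ?_⟩, ?_⟩, ?_⟩
  · show S.Clq (sp _)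
    rw [hsp]
    exact hy1.1
  · show InY S (sp _)
    rw [hsp]
    exact hy1
  · intro K hK
    apply hT2 K hK
    intro v hv
    apply hy2 v
    rw [← hsp]
    exact hv

theorem notAlpha (hΩ : Om1 Ω) (hS : Stat A) (hA : ∀ a ∈ A, ∃ x, x < a) (hCB : SpecCB)
    (hTH : SpecTH) (hMX : SpecMX) : ¬ AlphaRealcompact (YY S) := by
  classical
  have hCIP : CIP (FF S) := cip S hΩ hS hA hCB hTH
  have hcyl : ∀ (v : V) (b : Bool), IsClosed {y : YY S | y.1.1 v = b} := by
    intro v b
    have hc : Continuous (fun y : YY S => y.1.1 v) :=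
      ((continuous_apply v).comp continuous_subtype_val).comp continuous_subtype_val
    exact (isClosed_discrete ({b} : Set Bool)).preimage hc
  have hclosed : ∀ M : Code V, IsClosed {y : YY S | ¬ inO M (sp y.1.1)} := by
    intro M
    have h1 : {y : YY S | ¬ inO M (sp y.1.1)} = ⋂ p ∈ M,
        ((⋃ v ∈ p.1, {y : YY S | y.1.1 v = false}) ∪ ⋃ v ∈ p.2, {y : YY S | y.1.1 v = true}) := by
      ext y
      simp only [inO, sp, mem_iInter, mem_union, mem_iUnion, mem_ofPred_eq]
      constructor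
      · intro h p hp
        by_contra hcon
        push Not at hcon
        apply h
        refine ⟨p, hp, ?_, ?_⟩
        · intro v hv
          have := hcon.1 v hv
          simpa using this
        · intro v hv hv'
          exact hcon.2 v hv hv'
      · rintro h ⟨p, hp, h1, h2⟩
        rcases h p hp with ⟨v, hv, hv'⟩ | ⟨v, hv, hv'⟩
        · have h3 : y.1.1 v = true := h1 hv
          rw [h3] at hv'
          exact Bool.noConfusion hv'
        · exact h2 v hv hv'
    rw [h1]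
    refine isClosed_iInter fun p => isClosed_iInter fun _ => ?_
    exact (isClosed_biUnion_finset fun v _ => hcyl _ _).union
      (isClosed_biUnion_finset fun v _ => hcyl _ _)
  intro hα
  have hne : (⋂₀ FF S).Nonempty := by
    refine hα _ ⟨fun K hK => hK.1, fun 𝓢 h1 h2 => hCIP 𝓢 h1 h2.countable, ?_⟩ hCIP
    intro 𝓖 h𝓖1 h𝓖2 h𝓖3 K hK
    by_contra hKF
    let N : Code V := {p | ∀ y : YY S, (p.1 : Set V) ⊆ sp y.1.1 →
      (∀ v ∈ p.2, v ∉ sp y.1.1) → y ∉ K}
    have hNK : ∀ y : YY S, ¬ inO N (sp y.1.1) → y ∈ K := by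
      intro y hy
      by_contra hyK
      apply hy
      obtain ⟨U1, hU1, hU2⟩ := isOpen_induced_iff.1 (h𝓖1 K hK).isOpen_compl
      obtain ⟨U3, hU3, hU4⟩ := isOpen_induced_iff.1 hU1
      have hyU : y.1.1 ∈ U3 := by
        have h1 : y ∈ (Subtype.val ⁻¹' U1 : Set (YY S)) := by
          rw [hU2]
          exact hyK
        have h2 : y.1 ∈ U1 := h1
        rw [← hU4] at h2
        exact h2
      obtain ⟨F, G, hF, hG', hFG⟩ := exists_box hU3 hyU
      refine ⟨(F, G), ?_, fun v hv => hF v hv, fun v hv hv' => ?_⟩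
      · intro z hz1 hz2
        have h1 : z.1.1 ∈ U3 := hFG _ (fun v hv => hz1 hv) (fun v hv => by
          have := hz2 v hv
          simpa [sp] using this)
        have h2 : z.1 ∈ U1 := by
          rw [← hU4]
          exact h1
        have h3 : z ∈ (Subtype.val ⁻¹' U1 : Set (YY S)) := h2
        rw [hU2] at h3
        exact h3
      · have h1 := hG' v hv
        rw [show y.1.1 v = true from hv'] at h1
        exact Bool.noConfusion h1
    have hNn : ¬ S.Null N := fun hcon => hKF ⟨h𝓖1 K hK, N, hcon, hNK⟩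
    obtain ⟨M, hM1, hM2⟩ := hMX Ω A V S hΩ hA N hNn
    have hM : {y : YY S | ¬ inO M (sp y.1.1)} ∈ 𝓖 :=
      h𝓖3 ⟨hclosed M, M, hM1, fun y hy => hy⟩
    obtain ⟨y, hy⟩ := h𝓖2 {K, {y : YY S | ¬ inO M (sp y.1.1)}} (by
      intro L hL
      rcases hL with hL | hL
      · rw [hL]
        exact hK
      · rw [mem_singleton_iff.1 hL]
        exact hM) (by simp)
    have hyK : y ∈ K := hy K (by simp)
    have hyM : ¬ inO M (sp y.1.1) := hy {y : YY S | ¬ inO M (sp y.1.1)} (by simp)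
    rcases hM2 (sp y.1.1) y.2 with h1 | h1
    · obtain ⟨p, hp, h2, h3⟩ := h1
      exact hp y h2 h3 hyK
    · exact hyM h1
  obtain ⟨y, hy⟩ := hne
  obtain ⟨a, ha, -⟩ := y.2.2 0
  have hfalse : y ∈ {y : YY S | y.1.1 a = false} := by
    apply hy
    refine ⟨hcyl a false, {(({a} : Finset V), (∅ : Finset V))}, ?_, ?_⟩
    · rw [null_iff]
      refine ⟨fun _ _ => Task.clo fun _ => S.lev a, ?_, ?_⟩
      · intro h n k Z hZ
        exact absurd hZ (by simp)
      · rintro F hF1 hF2 ⟨p, hp, h1, -⟩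
        rw [mem_singleton_iff.1 hp] at h1
        have haF : a ∈ F := by
          have := h1 (show a ∈ (({a} : Finset V) : Set V) by simp)
          simpa using this
        have h2 := (hF2 a haF ∅ (by simp) 0).1
        obtain ⟨x, hx⟩ := hA _ (S.c_sub a (S.c_lev a))
        exact lt_irrefl _ (h2 x hx)
    · intro z hz
      by_contra hcon
      apply hz
      refine ⟨_, rfl, ?_, by simp⟩
      intro v hv
      have hva : v = a := by simpa using hv
      rw [hva]
      have h3 : ¬ z.1.1 a = false := hcon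
      simpa [sp] using h3
  have h1 : y.1.1 a = false := hfalse
  rw [show y.1.1 a = true from ha] at h1
  exact Bool.noConfusion h1

end FNM

open FNM

theorem specFN (hOM : SpecOM) (hVX : SpecVX) (hCQ : SpecCQ) (hCB : SpecCB) (hTH : SpecTH)
    (hMX : SpecMX) : SpecFN := by
  obtain ⟨Ω, _, hΩ, hNΩ, A, hA1, hA2, hA3⟩ := hOM
  obtain ⟨V, hNV, ⟨S⟩⟩ := hVX Ω hΩ hNΩ A
  have hcomp : IsCompact (XX S) := (isClosed_XX S).isCompact
  refine ⟨XX S, inferInstance, isCompact_iff_compactSpace.1 hcomp, inferInstance,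
    ⟨?_, ?_⟩, ?_⟩
  · exact hereditarilyMetaLindelof_of_countable _ hcomp
      (fun x hx => hCQ Ω A V S hΩ hA2 _ hx)
  · intro D _
    refine not_measurable ?_ D
    exact NoUf.inj (fun x : XX S => x.1) Subtype.val_injective hNV.bool
  · intro h
    exact notAlpha S hΩ hA1 hA3 hCB hTH hMX (h (FNM.YY S))

end Pool.Agent.Lib.MP_8c874d_gt.Zfc
end

section
set_option autoImplicit false

namespace Pool.Agent.Lib.MP_8c874d_gt.Zfc

open Set

namespace LCM

variable {Ω V : Type} [LinearOrder Ω] {A : Set Ω} (S : VS Ω A V)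

/-- the members of the family below `u` which are common lower neighbours of `h` -/
def Ix (z : Ω → Set V) (u : V) (h : Finset V) : Set Ω :=
  {x | x < S.lev u ∧ ∀ v ∈ h, z x ⊆ S.dn v}

open Classical in
/-- enumeration -/
noncomputable def en (z : Ω → Set V) (u : V) (h : Finset V) : ℕ → Set V :=
  if hx : ∃ f : ℕ → Ω, Ix S z u h = range f then fun n => z (hx.choose n) else fun _ => ∅

/-- the tasks -/
def CC (z : Ω → Set V) (T : Ω → Finset V → ℕ → Task Ω V) (h : Finset V) : Set (Task Ω V) :=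
  {Task.fam z} ∪ (⋃ (u : h) (x : Iio (S.lev u.1)) (h' : {h' // h' ∈ h.powerset}) (m : ℕ),
    {T x.1 h'.1 m}) ∪ ⋃ (u : h), {Task.pair u.1 (en S z u.1 h)}

theorem cc_countable (hΩ : Om1 Ω) (z : Ω → Set V) (T : Ω → Finset V → ℕ → Task Ω V)
    (h : Finset V) : (CC S z T h).Countable := by
  have h0 : ∀ x : Ω, Countable (Iio x) := fun x =>
    ((hΩ.init x).mono Iio_subset_Iic_self).to_subtype
  refine Countable.union (Countable.union (countable_singleton _) ?_) ?_
  · refine countable_iUnion fun u => ?_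
    have := h0 (S.lev u.1)
    exact countable_iUnion fun x => countable_iUnion fun h' => countable_iUnion fun m =>
      countable_singleton _
  · exact countable_iUnion fun u => countable_singleton _

end LCM

open LCM in
theorem specLC : SpecLC := by
  classical
  intro Ω _ A V S hΩ hA D P Q hQ
  by_contra hcon
  push Not at hcon
  choose z hz1 hz2 hz3 using hcon
  have h1 : ∀ x, ∃ T, DTest D T ∧ ∀ F : Finset V, S.Clq F →
      (∀ v ∈ F, S.Gen T v ∧ P v ∧ z x ⊆ S.dn v) → ¬ inO Q (z x ∪ F) := by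
    intro x
    by_contra hno
    push Not at hno
    apply hz3 x
    refine ⟨hz1 x, fun T hT => ?_⟩
    obtain ⟨F, hF1, hF2, hF3⟩ := hno T hT
    exact ⟨F, hF1, hF2, hF3⟩
  choose T hT1 hT2 using h1
  have hne : ∀ x, (z x).Nonempty := by
    intro x
    rw [nonempty_iff_ne_empty]
    intro h
    apply hz3 x
    rw [h]
    exact hQ
  obtain ⟨TT, hTT⟩ := exists_test (CC S z T) (cc_countable S hΩ z T)
    (fun h => ⟨Task.fam z, Or.inl (Or.inl rfl)⟩)
  have hTTD : DTest D TT := by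
    intro h n k Z hZ
    have h2 : TT h n ∈ CC S z T h := by
      rw [hTT]
      exact ⟨n, rfl⟩
    rw [hZ] at h2
    rcases h2 with (h2 | h2) | h2
    · exact absurd (mem_singleton_iff.1 h2) (by simp)
    · simp only [mem_iUnion, mem_singleton_iff] at h2
      obtain ⟨u, x, h', m, h3⟩ := h2
      exact hT1 x.1 h'.1 m k Z h3.symm
    · simp only [mem_iUnion, mem_singleton_iff] at h2
      obtain ⟨u, h3⟩ := h2
      exact absurd h3 (by simp)
  have hsat : ∀ a, S.Gen TT a → ∀ h : Finset V, (h : Set V) ⊆ S.dn a → ∀ t ∈ CC S z T h,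
      S.SatB (S.lev a) (S.dn a) t ∧ S.SatL a t := by
    intro a ha h hh t ht
    rw [hTT] at ht
    obtain ⟨n, rfl⟩ := ht
    exact ha h hh n
  obtain ⟨F, hF1, hF2, p, hp, hp1, hp2⟩ := hQ.2 TT hTTD
  rw [empty_union] at hp1 hp2
  rcases F.eq_empty_or_nonempty with rfl | hFne
  · -- the empty case
    obtain ⟨x, hx⟩ := hΩ.bdd_fin (fun v : p.2 => S.lev v.1)
    refine hT2 x ∅ ?_ ?_ ⟨p, hp, ?_, ?_⟩
    · exact fun u hu => absurd hu (by simp)
    · exact fun v hv => absurd hv (Finset.notMem_empty v)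
    · intro v hv
      exact absurd (hp1 hv) (by simp)
    · intro v hv hv2
      rw [Finset.coe_empty, union_empty] at hv2
      exact lt_asymm (hx ⟨v, hv⟩) (hz2 x v hv2)
  · obtain ⟨v1, hv1, hmin⟩ := Finset.exists_min_image F S.lev hFne
    have hdn : ∀ u ∈ F, u ≠ v1 → v1 ∈ S.dn u := fun u hu huv =>
      hF1.dn hv1 hu (lt_of_le_of_ne (hmin u hu) fun h => huv (hF1.inj hu hv1 h.symm))
    have key : ∀ s : Finset V, s ⊆ F ∧ v1 ∈ s → ∀ γ, γ < S.lev v1 → ∃ x, x < S.lev v1 ∧
        S.Abv γ (z x) ∧ ∀ v ∈ s, z x ⊆ S.dn v := by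
      intro s
      induction s using Finset.induction_on_max_value S.lev with
      | empty => exact fun h => absurd h.2 (Finset.notMem_empty _)
      | insert a s has hle ih =>
        rintro ⟨hsF, hv1s⟩ γ hγ
        have haF : a ∈ F := hsF (Finset.mem_insert_self _ _)
        have hsF' : s ⊆ F := (Finset.subset_insert _ _).trans hsF
        have hs_dn : (s : Set V) ⊆ S.dn a := by
          intro u hu
          have hne : u ≠ a := fun h => has (h ▸ hu)
          exact hF1.dn (hsF' hu) haF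
            (lt_of_le_of_ne (hle u hu) fun h => hne (hF1.inj (hsF' hu) haF h))
        by_cases hv : v1 ∈ s
        · -- the pair task
          have hsa := (hsat a (hF2 a haF).1 s hs_dn (Task.pair v1 (en S z v1 s))
            (Or.inr (mem_iUnion.2 ⟨⟨v1, hv⟩, rfl⟩))).1
          have hix : (Ix S z v1 s).Countable :=
            ((hΩ.init (S.lev v1))).mono fun x hx => hx.1.le
          have hixne : (Ix S z v1 s).Nonempty := by
            obtain ⟨x, hx1, -, hx2⟩ := ih ⟨hsF', hv⟩ γ hγ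
            exact ⟨x, hx1, hx2⟩
          have hex : ∃ f : ℕ → Ω, Ix S z v1 s = range f := hix.exists_eq_range hixne
          have hen : ∀ n, en S z v1 s n = z (hex.choose n) := by
            intro n
            rw [en, dif_pos hex]
          have hch : ∀ n, hex.choose n ∈ Ix S z v1 s := by
            intro n
            exact hex.choose_spec.symm.subset ⟨n, rfl⟩
          obtain ⟨n, hn1, hn2⟩ := hsa (by
            intro n
            rw [hen]
            exact (hch n).2 v1 hv) (by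
            intro γ' hγ'
            obtain ⟨x, hx1, hx2, hx3⟩ := ih ⟨hsF', hv⟩ γ' hγ'
            have hx4 : x ∈ Ix S z v1 s := ⟨hx1, hx3⟩
            obtain ⟨n, hn⟩ := hex.choose_spec.subset hx4
            refine ⟨n, ?_⟩
            rw [hen, hn]
            exact hx2) (hs_dn hv) γ hγ
          rw [hen] at hn1 hn2
          refine ⟨hex.choose n, (hch n).1, hn2, fun v hv' => ?_⟩
          rcases Finset.mem_insert.1 hv' with rfl | hv'
          · exact hn1
          · exact (hch n).2 v hv'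
        · -- the first step
          have hav : a = v1 := by
            rcases Finset.mem_insert.1 hv1s with h | h
            · exact h.symm
            · exact absurd h hv
          subst hav
          have hs0 : s = ∅ := by
            rw [Finset.eq_empty_iff_forall_notMem]
            intro u hu
            have h3 : S.lev u = S.lev a := le_antisymm (hle u hu) (hmin u (hsF' hu))
            exact has ((hF1.inj (hsF' hu) haF h3) ▸ hu)
          have hsa := (hsat a (hF2 a haF).1 ∅ (by simp) (Task.fam z) (Or.inl (Or.inl rfl))).1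
          obtain ⟨x, hx1, hx2, hx3⟩ := hsa (fun x => ⟨hz1 x, hz2 x⟩) γ hγ
          refine ⟨x, hx2, fun v hv' => lt_of_le_of_lt hx1 (hz2 x v hv'), fun v hv' => ?_⟩
          rw [hs0] at hv'
          have hva : v = a := by simpa using hv'
          rw [hva]
          exact hx3
    obtain ⟨γ, hγ1, hγ2⟩ := exists_below S.lev (S.lev v1) (hA _ (S.c_sub v1 (S.c_lev v1))) p.2
    obtain ⟨x, hx1, hx2, hx3⟩ := key F ⟨Finset.Subset.refl _, hv1⟩ γ hγ1
    refine hT2 x F hF1 (fun v hv => ⟨?_, (hF2 v hv).2.1, hx3 v hv⟩) ⟨p, hp,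
      hp1.trans subset_union_right, ?_⟩
    · intro h' hh' m
      obtain ⟨u, hu⟩ := hne x
      refine hsat v (hF2 v hv).1 (insert u h') ?_ (T x h' m) (Or.inl (Or.inr ?_))
      · rw [Finset.coe_insert]
        exact insert_subset (hx3 v hv hu) hh'
      · simp only [mem_iUnion, mem_singleton_iff]
        exact ⟨⟨u, Finset.mem_insert_self _ _⟩, ⟨x, hz2 x u hu⟩,
          ⟨h', Finset.mem_powerset.2 (Finset.subset_insert _ _)⟩, m, rfl⟩
    · intro v hv hv2
      rcases hv2 with hv2 | hv2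
      · have h4 : S.lev v < S.lev v1 := S.dn_lt _ _ (hx3 v1 hv1 hv2)
        exact absurd (hx2 v hv2) (not_lt.2 (hγ2 v hv h4))
      · exact hp2 v hv hv2

end Pool.Agent.Lib.MP_8c874d_gt.Zfc
end

section
set_option autoImplicit false

/-!
MP_8c874d_gt, module MC: from a hull to the output of the master lemma.
-/

namespace Pool.Agent.Lib.MP_8c874d_gt.Zfc

open Set

namespace MCM

variable {Ω V : Type} [LinearOrder Ω] {A : Set Ω} (S : VS Ω A V)

/-- `u` is captured by `c'`. -/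
def Cap (c' : Set Ω) (u : V) : Prop :=
  S.lev u ∈ c' ∧ ∃ γ, γ < S.lev u ∧ ∀ x ∈ S.c u, γ < x → x ∈ c'

/-- conditions -/
structure Cnd (N : Set V) (d : Ω) (h : Set V) (c' : Set Ω) (r : Ω) : Prop where
  hN : h ⊆ N
  cl : Cl c'
  cA : c' ⊆ A
  cr : ∀ x ∈ c', x ≤ r
  rd : r < d
  cap : ∀ u ∈ h, Cap S c' u

theorem Cap.mono {S : VS Ω A V} {c1 c2 : Set Ω} {u : V} (h : Cap S c1 u) (hc : c1 ⊆ c2) :
    Cap S c2 u := by
  obtain ⟨h1, γ, h2, h3⟩ := h
  exact ⟨hc h1, γ, h2, fun x hx hγ => hc (h3 x hx hγ)⟩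

/-- the top of an admissible set -/
theorem cap_top (hA : ∀ a ∈ A, ∃ x, x < a) {z : Set V} {w : V} (hw : w ∈ z)
    (ht : ∀ u ∈ z, u ≠ w → u ∈ S.dn w) : ∀ u ∈ z, Cap S (S.c w) u := by
  intro u hu
  by_cases h : u = w
  · subst h
    obtain ⟨x, hx⟩ := hA _ (S.c_sub u (S.c_lev u))
    exact ⟨S.c_lev u, x, hx, fun y hy _ => hy⟩
  · exact ⟨S.dn_mem w u (ht u hu h), S.dn_tail w u (ht u hu h)⟩

/-- the starting condition -/
theorem start (hA : ∀ a ∈ A, ∃ x, x < a) {B : Finset V → ℕ → Task Ω V} {y0 N : Set V} {d : Ω}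
    (hy : S.Adm y0) (hd : ∃ x, x < d) (hN : y0 ⊆ N) (hH : Hull S B d N) :
    ∃ c' r, Cnd S N d y0 c' r := by
  rcases hy.2 with h | ⟨w, hw, ht⟩
  · obtain ⟨x, hx⟩ := hd
    refine ⟨∅, x, ⟨hN, ?_, fun _ h => h.elim, fun _ h => h.elim, hx, fun u hu => ?_⟩⟩
    · rintro z ⟨⟨y, hy⟩, hz⟩
      obtain ⟨a, ha, -⟩ := hz y hy
      exact ha.elim
    · rw [h] at hu
      exact hu.elim
  · exact ⟨S.c w, S.lev w, ⟨hN, S.c_cl w, S.c_sub w, S.c_le w, (hH.2.1 w (hN hw)).1,
      cap_top S hA hw ht⟩⟩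

/-- what a step does for the task `t` at the stage `γ`. -/
def Did (t : Task Ω V) (h h2 : Set V) (d γ : Ω) : Prop :=
  (∀ H, t = Task.fam H → (∀ x, S.Adm (H x) ∧ S.Abv x (H x)) →
    ∃ x, γ ≤ x ∧ x < d ∧ H x ⊆ h2) ∧
  ∀ u H, t = Task.pair u H → (∀ n, H n ⊆ S.dn u) → (∀ γ, γ < S.lev u → ∃ n, S.Abv γ (H n)) →
    u ∈ h → γ < S.lev u → ∃ n, H n ⊆ h2 ∧ S.Abv γ (H n)

theorem step (hA : ∀ a ∈ A, ∃ x, x < a) {B : Finset V → ℕ → Task Ω V} {N : Set V} {d : Ω}
    (hH : Hull S B d N) {h : Set V} {c' : Set Ω} {r : Ω} (hc : Cnd S N d h c' r)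
    (h' : Finset V) (hh' : (h' : Set V) ⊆ N) (n : ℕ) (γ : Ω) (hγ : γ < d) :
    ∃ h2 c2 r2, Cnd S N d h2 c2 r2 ∧ h ⊆ h2 ∧ c' ⊆ c2 ∧ r ≤ r2 ∧ (∀ x ∈ c2, x ≤ r → x ∈ c') ∧
      γ ≤ r2 ∧ Did S (B h' n) h h2 d γ := by
  have hr1 : max r γ < d := max_lt hc.rd hγ
  have hbase : Cnd S N d h c' (max r γ) :=
    ⟨hc.hN, hc.cl, hc.cA, fun x hx => (hc.cr x hx).trans (le_max_left _ _), hr1, hc.cap⟩
  rcases hB : B h' n with φ | H | ⟨u, H⟩ | ⟨k, Z⟩
  · exact ⟨h, c', max r γ, hbase, subset_rfl, subset_rfl, le_max_left _ _, fun x hx _ => hx,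
      le_max_right _ _, (fun H hH => by simp at hH), fun u H hH => by simp at hH⟩
  · by_cases hs : ∀ x, S.Adm (H x) ∧ S.Abv x (H x)
    · have hHN : H (max r γ) ⊆ N := (hH.2.2 h' hh' n).2 H hB hs _ hr1
      obtain ⟨⟨-, hadm⟩, habv⟩ := hs (max r γ)
      rcases hadm with he | ⟨w, hw, ht⟩
      · refine ⟨h, c', max r γ, hbase, subset_rfl, subset_rfl, le_max_left _ _, fun x hx _ => hx,
          le_max_right _ _, (fun H' hH' _ => ?_), fun u H' hH' => by simp at hH'⟩
        have hHe : H = H' := by simpa using hH'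
        subst hHe
        exact ⟨max r γ, le_max_right _ _, hr1, by rw [he]; exact empty_subset _⟩
      · have hrw : max r γ < S.lev w := habv w hw
        refine ⟨h ∪ H (max r γ), c' ∪ (S.c w ∩ Ioi (max r γ)), S.lev w,
          ⟨union_subset hc.hN hHN, ?_, ?_, ?_, (hH.2.1 w (hHN hw)).1, ?_⟩, subset_union_left,
          subset_union_left, ((le_max_left _ _).trans_lt hrw).le, ?_,
          ((le_max_right _ _).trans_lt hrw).le, (fun H' hH' _ => ?_),
          fun u H' hH' => by simp at hH'⟩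
        · -- closed
          rintro z ⟨⟨y, hy⟩, hz⟩
          rcases le_or_gt z (max r γ) with hzr | hzr
          · refine Or.inl (hc.cl z ⟨⟨y, hy⟩, fun x hx => ?_⟩)
            obtain ⟨a, ha, hxa, haz⟩ := hz x hx
            rcases ha with ha | ha
            · exact ⟨a, ha, hxa, haz⟩
            · exact absurd (haz.trans_le hzr) (not_lt.2 (le_of_lt ha.2))
          · refine Or.inr ⟨S.c_cl w z ⟨⟨y, hy⟩, fun x hx => ?_⟩, hzr⟩
            obtain ⟨a, ha, hxa, haz⟩ := hz (max x (max r γ)) (max_lt hx hzr)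
            rcases ha with ha | ha
            · exact absurd ((hc.cr a ha).trans ((le_max_left r γ).trans (le_max_right x _)))
                (not_le.2 hxa)
            · exact ⟨a, ha.1, (le_max_left _ _).trans_lt hxa, haz⟩
        · exact union_subset hc.cA fun x hx => S.c_sub w hx.1
        · rintro x (hx | hx)
          · exact ((hc.cr x hx).trans (le_max_left _ _)).trans hrw.le
          · exact S.c_le w x hx.1
        · rintro u (hu | hu)
          · exact (hc.cap u hu).mono subset_union_left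
          · obtain ⟨h1, g1, h2, h3⟩ := cap_top S hA hw ht u hu
            have h4 : max r γ < S.lev u := habv u hu
            exact ⟨Or.inr ⟨h1, h4⟩, max g1 (max r γ), max_lt h2 h4, fun x hx hgx =>
              Or.inr ⟨h3 x hx ((le_max_left _ _).trans_lt hgx),
                (le_max_right _ _).trans_lt hgx⟩⟩
        · rintro x (hx | hx) hxr
          · exact hx
          · exact absurd (hxr.trans (le_max_left r γ)) (not_le.2 hx.2)
        · have hHe : H = H' := by simpa using hH'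
          subst hHe
          exact ⟨max r γ, le_max_right _ _, hr1, subset_union_right⟩
    · refine ⟨h, c', max r γ, hbase, subset_rfl, subset_rfl, le_max_left _ _, fun x hx _ => hx,
        le_max_right _ _, (fun H' hH' hs' => ?_), fun u H' hH' => by simp at hH'⟩
      have hHe : H = H' := by simpa using hH'
      subst hHe
      exact absurd hs' hs
  · by_cases hs : (∀ n, H n ⊆ S.dn u) ∧ (∀ γ, γ < S.lev u → ∃ n, S.Abv γ (H n)) ∧ u ∈ h ∧
        γ < S.lev u
    · obtain ⟨hs1, hs2, hu, hγu⟩ := hs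
      obtain ⟨-, g0, hg0, ht⟩ := hc.cap u hu
      obtain ⟨m, hm⟩ := hs2 (max g0 γ) (max_lt hg0 hγu)
      refine ⟨h ∪ H m, c', max r γ, ⟨union_subset hc.hN ((hs1 m).trans (hH.2.1 u (hc.hN hu)).2),
        hc.cl, hc.cA, hbase.cr, hr1, ?_⟩, subset_union_left, subset_rfl, le_max_left _ _,
        fun x hx _ => hx, le_max_right _ _, (fun H' hH' => by simp at hH'),
        fun u' H' hH' _ _ _ _ => ?_⟩
      · rintro v (hv | hv)
        · exact hc.cap v hv
        · have h1 : g0 < S.lev v := (le_max_left _ _).trans_lt (hm v hv)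
          obtain ⟨g1, h2, h3⟩ := S.dn_tail u v (hs1 m hv)
          exact ⟨ht _ (S.dn_mem u v (hs1 m hv)) h1, max g1 g0, max_lt h2 h1, fun x hx hgx =>
            ht x (h3 x hx ((le_max_left _ _).trans_lt hgx)) ((le_max_right _ _).trans_lt hgx)⟩
      · obtain ⟨rfl, rfl⟩ : u = u' ∧ H = H' := by simpa using hH'
        exact ⟨m, subset_union_right, fun v hv => (le_max_right _ _).trans_lt (hm v hv)⟩
    · refine ⟨h, c', max r γ, hbase, subset_rfl, subset_rfl, le_max_left _ _, fun x hx _ => hx,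
        le_max_right _ _, (fun H' hH' => by simp at hH'), fun u' H' hH' a b c e => ?_⟩
      obtain ⟨rfl, rfl⟩ : u = u' ∧ H = H' := by simpa using hH'
      exact absurd ⟨a, b, c, e⟩ hs
  · exact ⟨h, c', max r γ, hbase, subset_rfl, subset_rfl, le_max_left _ _, fun x hx _ => hx,
      le_max_right _ _, (fun H hH => by simp at hH), fun u H hH => by simp at hH⟩

/-- finite subsets of a countable set -/
theorem countable_fin {N : Set V} (hN : N.Countable) :
    {h : Finset V | (h : Set V) ⊆ N}.Countable := by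
  refine ((countable_ofPred_finite_subset hN).preimage_of_injOn
    (f := fun h : Finset V => (h : Set V)) (fun a _ b _ h => Finset.coe_injective h)).mono ?_
  intro h hh
  exact ⟨h.finite_toSet, hh⟩

/-- a finite subset of an increasing union -/
theorem fin_sub {h : ℕ → Set V} (hm : ∀ i j, i ≤ j → h i ⊆ h j) (s : Finset V)
    (hs : (s : Set V) ⊆ ⋃ i, h i) : ∃ i, (s : Set V) ⊆ h i := by
  classical
  induction s using Finset.induction_on with
  | empty => exact ⟨0, by simp⟩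
  | insert a s _ ih =>
    rw [Finset.coe_insert, insert_subset_iff] at hs
    obtain ⟨i, hi⟩ := ih hs.2
    obtain ⟨j, hj⟩ := mem_iUnion.1 hs.1
    refine ⟨max i j, ?_⟩
    rw [Finset.coe_insert, insert_subset_iff]
    exact ⟨hm _ _ (le_max_right _ _) hj, hi.trans (hm _ _ (le_max_left _ _))⟩

end MCM

open MCM in
theorem specMC : SpecMC := by
  intro Ω _ A V S hΩ hA B y0 hy d N hd hd' hN hH
  obtain ⟨c0, r0, h0⟩ := start S hA hy hd' hN hH
  have hI : {p : Finset V × ℕ × Ω | (p.1 : Set V) ⊆ N ∧ p.2.2 < d}.Countable := by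
    have h1 : (Set.univ : Set ℕ).Countable := countable_univ
    have h2 : (Iio d).Countable := (hΩ.init d).mono fun x hx => le_of_lt hx
    refine ((countable_fin hH.1).prod (h1.prod h2)).mono ?_
    rintro ⟨a, b, c⟩ ⟨hp1, hp2⟩
    exact ⟨hp1, mem_univ _, hp2⟩
  obtain ⟨x0, hx0⟩ := hd'
  obtain ⟨e, he⟩ := hI.exists_eq_range ⟨(∅, 0, x0), by simp, hx0⟩
  have heI : ∀ i, ((e i).1 : Set V) ⊆ N ∧ (e i).2.2 < d := fun i => by
    have : e i ∈ {p : Finset V × ℕ × Ω | (p.1 : Set V) ⊆ N ∧ p.2.2 < d} := by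
      rw [he]; exact mem_range_self i
    exact this
  have hstep : ∀ (s : {s : Set V × Set Ω × Ω // Cnd S N d s.1 s.2.1 s.2.2}) (i : ℕ),
      ∃ s' : {s : Set V × Set Ω × Ω // Cnd S N d s.1 s.2.1 s.2.2},
        s.1.1 ⊆ s'.1.1 ∧ s.1.2.1 ⊆ s'.1.2.1 ∧ s.1.2.2 ≤ s'.1.2.2 ∧
        (∀ x ∈ s'.1.2.1, x ≤ s.1.2.2 → x ∈ s.1.2.1) ∧ (e i).2.2 ≤ s'.1.2.2 ∧
        Did S (B (e i).1 (e i).2.1) s.1.1 s'.1.1 d (e i).2.2 := by
    rintro ⟨⟨h, c', r⟩, hc⟩ i
    obtain ⟨h2, c2, r2, k1, k2, k3, k4, k5, k6, k7⟩ :=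
      step S hA hH hc (e i).1 (heI i).1 (e i).2.1 (e i).2.2 (heI i).2
    exact ⟨⟨(h2, c2, r2), k1⟩, k2, k3, k4, k5, k6, k7⟩
  choose nx n1 n2 n3 n4 n5 n6 using hstep
  let sq : ℕ → {s : Set V × Set Ω × Ω // Cnd S N d s.1 s.2.1 s.2.2} := fun i =>
    Nat.rec ⟨(y0, c0, r0), h0⟩ (fun i s => nx s i.unpair.1) i
  have hsq : ∀ i, sq (i + 1) = nx (sq i) i.unpair.1 := fun i => rfl
  have mh : ∀ i j, i ≤ j → (sq i).1.1 ⊆ (sq j).1.1 := fun i j hij => by
    induction j, hij using Nat.le_induction with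
    | base => exact subset_rfl
    | succ j _ ih => exact ih.trans (by rw [hsq]; exact n1 _ _)
  have mc : ∀ i j, i ≤ j → (sq i).1.2.1 ⊆ (sq j).1.2.1 := fun i j hij => by
    induction j, hij using Nat.le_induction with
    | base => exact subset_rfl
    | succ j _ ih => exact ih.trans (by rw [hsq]; exact n2 _ _)
  have mr : ∀ i j, i ≤ j → (sq i).1.2.2 ≤ (sq j).1.2.2 := fun i j hij => by
    induction j, hij using Nat.le_induction with
    | base => exact le_rfl
    | succ j _ ih => exact ih.trans (by rw [hsq]; exact n3 _ _)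
  have me : ∀ i j, i ≤ j → ∀ x ∈ (sq j).1.2.1, x ≤ (sq i).1.2.2 → x ∈ (sq i).1.2.1 :=
    fun i j hij => by
    induction j, hij using Nat.le_induction with
    | base => exact fun x hx _ => hx
    | succ j hj ih =>
      intro x hx hxr
      refine ih x ?_ hxr
      rw [hsq] at hx
      exact n4 _ _ x hx (hxr.trans (mr i j hj))
  -- every task is treated arbitrarily late
  have late : ∀ (h : Finset V) (n : ℕ) (γ : Ω), (h : Set V) ⊆ N → γ < d → ∀ i0,
      ∃ i, i0 ≤ i ∧ γ ≤ (sq (i + 1)).1.2.2 ∧ Did S (B h n) (sq i).1.1 (sq (i + 1)).1.1 d γ := by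
    intro h n γ hh hγ i0
    have h1 : (h, n, γ) ∈ {p : Finset V × ℕ × Ω | (p.1 : Set V) ⊆ N ∧ p.2.2 < d} := ⟨hh, hγ⟩
    rw [he] at h1
    obtain ⟨m, hm⟩ := h1
    refine ⟨Nat.pair m i0, Nat.right_le_pair m i0, ?_, ?_⟩
    · have := n5 (sq (Nat.pair m i0)) (Nat.pair m i0).unpair.1
      rw [Nat.unpair_pair, hm] at this
      rw [hsq, Nat.unpair_pair]
      exact this
    · have := n6 (sq (Nat.pair m i0)) (Nat.pair m i0).unpair.1
      rw [Nat.unpair_pair, hm] at this
      rw [hsq, Nat.unpair_pair]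
      exact this
  have hcof : ∀ γ, γ < d → ∃ i, γ ≤ (sq i).1.2.2 := fun γ hγ => by
    obtain ⟨i, -, h1, -⟩ := late ∅ 0 γ (by simp) hγ 0
    exact ⟨i + 1, h1⟩
  have hgN : (⋃ i, (sq i).1.1) ⊆ N := iUnion_subset fun i => (sq i).2.hN
  refine ⟨insert d (⋃ i, (sq i).1.2.1), ⋃ i, (sq i).1.1, ⟨mem_insert _ _, ?_, ?_, ?_⟩,
    hH.1.mono hgN, ?_, ?_, ?_⟩
  · rw [insert_subset_iff]
    exact ⟨hd, iUnion_subset fun i => (sq i).2.cA⟩
  · rintro x (rfl | hx)
    · exact le_rfl
    · obtain ⟨i, hi⟩ := mem_iUnion.1 hx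
      exact ((sq i).2.cr x hi).trans (sq i).2.rd.le
  · rintro z ⟨⟨y, hyz⟩, hz⟩
    rcases lt_trichotomy z d with hzd | hzd | hzd
    · obtain ⟨i, hi⟩ := hcof z hzd
      refine Or.inr (mem_iUnion.2 ⟨i, (sq i).2.cl z ⟨⟨y, hyz⟩, fun x hx => ?_⟩⟩)
      obtain ⟨a, ha, hxa, haz⟩ := hz x hx
      refine ⟨a, ?_, hxa, haz⟩
      rcases ha with ha | ha
      · exact absurd (ha ▸ haz) (not_lt.2 hzd.le)
      · obtain ⟨j, hj⟩ := mem_iUnion.1 ha
        rcases le_total j i with hji | hij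
        · exact mc j i hji hj
        · exact me i j hij a hj (haz.le.trans hi)
    · exact Or.inl hzd
    · obtain ⟨a, ha, hxa, haz⟩ := hz d hzd
      rcases ha with ha | ha
      · exact absurd hxa (ha ▸ lt_irrefl _)
      · obtain ⟨j, hj⟩ := mem_iUnion.1 ha
        exact absurd ((sq j).2.cr a hj) (not_le.2 ((sq j).2.rd.trans hxa))
  · intro u hu
    obtain ⟨i, hi⟩ := mem_iUnion.1 hu
    obtain ⟨h1, g, h2, h3⟩ := (sq i).2.cap u hi
    exact ⟨(hH.2.1 u (hgN hu)).1, Or.inr (mem_iUnion.2 ⟨i, h1⟩), g, h2, fun x hx hg =>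
      Or.inr (mem_iUnion.2 ⟨i, h3 x hx hg⟩)⟩
  · exact fun u hu => mem_iUnion.2 ⟨0, hu⟩
  · intro h hh n
    have hhN : (h : Set V) ⊆ N := hh.trans hgN
    obtain ⟨i, hi⟩ := fin_sub mh h hh
    rcases hB : B h n with φ | H | ⟨u, H⟩ | ⟨k, Z⟩
    · exact (hH.2.2 h hhN n).1 φ hB
    · intro hs γ hγ
      obtain ⟨j, -, -, hj⟩ := late h n γ hhN hγ 0
      obtain ⟨x, h1, h2, h3⟩ := hj.1 H hB hs
      exact ⟨x, h1, h2, h3.trans fun v hv => mem_iUnion.2 ⟨j + 1, hv⟩⟩
    · intro hs1 hs2 hu γ hγ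
      obtain ⟨i1, hi1⟩ := mem_iUnion.1 hu
      obtain ⟨j, hj1, -, hj⟩ := late h n γ hhN (hγ.trans (hH.2.1 u (hgN hu)).1) i1
      obtain ⟨m, h1, h2⟩ := hj.2 u H hB hs1 hs2 (mh _ _ hj1 hi1) hγ
      exact ⟨m, h1.trans fun v hv => mem_iUnion.2 ⟨j + 1, hv⟩, h2⟩
    · trivial

end Pool.Agent.Lib.MP_8c874d_gt.Zfc
end

section
set_option autoImplicit false

/-!
MP_8c874d_gt, module MN: hulls exist.
-/

namespace Pool.Agent.Lib.MP_8c874d_gt.Zfc

open Set

namespace MNM

variable {Ω V : Type} [LinearOrder Ω] {A : Set Ω} (S : VS Ω A V)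

/-- finite subsets of a countable set -/
theorem countable_fin {N : Set V} (hN : N.Countable) :
    {h : Finset V | (h : Set V) ⊆ N}.Countable := by
  refine ((countable_ofPred_finite_subset hN).preimage_of_injOn
    (f := fun h : Finset V => (h : Set V)) (fun a _ b _ h => Finset.coe_injective h)).mono ?_
  intro h hh
  exact ⟨h.finite_toSet, hh⟩

/-- admissible sets are countable -/
theorem adm_countable {z : Set V} (h : S.Adm z) : z.Countable := by
  rcases h.2 with h | ⟨w, -, ht⟩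
  · rw [h]; exact countable_empty
  · refine ((S.dn_countable w).insert w).mono fun u hu => ?_
    by_cases h : u = w
    · exact Or.inl h
    · exact Or.inr (ht u hu h)

/-- the vertices demanded by a task at `x` -/
def fset (t : Task Ω V) (x : Ω) : Set V :=
  {v | ∃ H, t = Task.fam H ∧ (∀ x, S.Adm (H x) ∧ S.Abv x (H x)) ∧ v ∈ H x}

/-- the levels demanded by a task at `x` -/
def cval (t : Task Ω V) (x : Ω) : Set Ω := {y | ∃ φ, t = Task.clo φ ∧ y = φ x}

theorem fset_countable (t : Task Ω V) (x : Ω) : (fset S t x).Countable := by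
  rcases t with φ | H | ⟨u, H⟩ | ⟨k, Z⟩
  · refine countable_empty.mono ?_
    rintro v ⟨H, h, -⟩
    simp at h
  · by_cases hs : ∀ x, S.Adm (H x) ∧ S.Abv x (H x)
    · refine (adm_countable S (hs x).1).mono ?_
      rintro v ⟨H', h, -, hv⟩
      have : H = H' := by simpa using h
      rw [this]
      exact hv
    · refine countable_empty.mono ?_
      rintro v ⟨H', h, hs', -⟩
      have : H = H' := by simpa using h
      exact (hs (this ▸ hs')).elim
  · refine countable_empty.mono ?_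
    rintro v ⟨H, h, -⟩
    simp at h
  · refine countable_empty.mono ?_
    rintro v ⟨H, h, -⟩
    simp at h

theorem cval_countable (t : Task Ω V) (x : Ω) : (cval t x).Countable := by
  rcases t with φ | H | ⟨u, H⟩ | ⟨k, Z⟩
  · refine (countable_singleton (φ x)).mono ?_
    rintro y ⟨φ', h, rfl⟩
    have : φ = φ' := by simpa using h
    rw [this]
    exact mem_singleton _
  all_goals
    refine countable_empty.mono ?_
    rintro y ⟨φ', h, -⟩
    simp at h

/-- one step of the closure -/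
def stp (B : Finset V → ℕ → Task Ω V) (x : Ω) (M : Set V) : Set V :=
  M ∪ (⋃ u ∈ M, S.dn u) ∪
    ⋃ h ∈ {h : Finset V | (h : Set V) ⊆ M}, ⋃ n : ℕ, ⋃ x' ∈ Iic x, fset S (B h n) x'

/-- the closure -/
def cls (B : Finset V → ℕ → Task Ω V) (y0 : Set V) (x : Ω) : ℕ → Set V
  | 0 => y0
  | i + 1 => stp S B x (cls B y0 x i)

/-- the hull of index `x` -/
def hul (B : Finset V → ℕ → Task Ω V) (y0 : Set V) (x : Ω) : Set V := ⋃ i, cls S B y0 x i

/-- the levels demanded at `x` -/
def lvs (B : Finset V → ℕ → Task Ω V) (y0 : Set V) (x : Ω) : Set Ω :=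
  Iic x ∪ S.lev '' hul S B y0 x ∪
    ⋃ h ∈ {h : Finset V | (h : Set V) ⊆ hul S B y0 x}, ⋃ n : ℕ, ⋃ x' ∈ Iic x, cval (B h n) x'

variable {S}

theorem stp_countable (hΩ : Om1 Ω) (B : Finset V → ℕ → Task Ω V) (x : Ω) {M : Set V}
    (hM : M.Countable) : (stp S B x M).Countable := by
  refine (hM.union (hM.biUnion fun u _ => S.dn_countable u)).union ?_
  exact (countable_fin hM).biUnion fun h _ => countable_iUnion fun n =>
    (hΩ.init x).biUnion fun x' _ => fset_countable S _ _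

theorem cls_countable (hΩ : Om1 Ω) (B : Finset V → ℕ → Task Ω V) {y0 : Set V}
    (hy : y0.Countable) (x : Ω) (i : ℕ) : (cls S B y0 x i).Countable := by
  induction i with
  | zero => exact hy
  | succ i ih => exact stp_countable hΩ B x ih

theorem hul_countable (hΩ : Om1 Ω) (B : Finset V → ℕ → Task Ω V) {y0 : Set V}
    (hy : y0.Countable) (x : Ω) : (hul S B y0 x).Countable :=
  countable_iUnion fun i => cls_countable hΩ B hy x i

theorem lvs_countable (hΩ : Om1 Ω) (B : Finset V → ℕ → Task Ω V) {y0 : Set V}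
    (hy : y0.Countable) (x : Ω) : (lvs S B y0 x).Countable := by
  refine ((hΩ.init x).union ((hul_countable hΩ B hy x).image _)).union ?_
  exact (countable_fin (hul_countable hΩ B hy x)).biUnion fun h _ => countable_iUnion fun n =>
    (hΩ.init x).biUnion fun x' _ => cval_countable _ _

theorem stp_mono (B : Finset V → ℕ → Task Ω V) {x x2 : Ω} (hx : x ≤ x2) {M M2 : Set V}
    (hM : M ⊆ M2) : stp S B x M ⊆ stp S B x2 M2 := by
  refine union_subset_union (union_subset_union hM (biUnion_subset_biUnion_left hM)) ?_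
  intro v hv
  simp only [mem_iUnion] at hv ⊢
  obtain ⟨h, hh, n, x', hx', hv⟩ := hv
  exact ⟨h, hh.trans hM, n, x', le_trans hx' hx, hv⟩

theorem cls_mono (B : Finset V → ℕ → Task Ω V) (y0 : Set V) {x x2 : Ω} (hx : x ≤ x2) (i : ℕ) :
    cls S B y0 x i ⊆ cls S B y0 x2 i := by
  induction i with
  | zero => exact subset_rfl
  | succ i ih => exact stp_mono B hx ih

theorem hul_mono (B : Finset V → ℕ → Task Ω V) (y0 : Set V) {x x2 : Ω} (hx : x ≤ x2) :
    hul S B y0 x ⊆ hul S B y0 x2 := iUnion_mono fun i => cls_mono B y0 hx i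

theorem cls_le (B : Finset V → ℕ → Task Ω V) (y0 : Set V) (x : Ω) (i j : ℕ) (hij : i ≤ j) :
    cls S B y0 x i ⊆ cls S B y0 x j := by
  induction j, hij using Nat.le_induction with
  | base => exact subset_rfl
  | succ j _ ih => exact ih.trans (subset_union_left.trans subset_union_left)

/-- a finite subset of an increasing union -/
theorem fin_sub {h : ℕ → Set V} (hm : ∀ i j, i ≤ j → h i ⊆ h j) (s : Finset V)
    (hs : (s : Set V) ⊆ ⋃ i, h i) : ∃ i, (s : Set V) ⊆ h i := by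
  classical
  induction s using Finset.induction_on with
  | empty => exact ⟨0, by simp⟩
  | insert a s _ ih =>
    rw [Finset.coe_insert, insert_subset_iff] at hs
    obtain ⟨i, hi⟩ := ih hs.2
    obtain ⟨j, hj⟩ := mem_iUnion.1 hs.1
    refine ⟨max i j, ?_⟩
    rw [Finset.coe_insert, insert_subset_iff]
    exact ⟨hm _ _ (le_max_right _ _) hj, hi.trans (hm _ _ (le_max_left _ _))⟩

theorem hul_dn (B : Finset V → ℕ → Task Ω V) (y0 : Set V) (x : Ω) {u : V}
    (hu : u ∈ hul S B y0 x) : S.dn u ⊆ hul S B y0 x := by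
  obtain ⟨i, hi⟩ := mem_iUnion.1 hu
  intro v hv
  refine mem_iUnion.2 ⟨i + 1, Or.inl (Or.inr ?_)⟩
  simp only [mem_iUnion]
  exact ⟨u, hi, hv⟩

theorem hul_fam (B : Finset V → ℕ → Task Ω V) (y0 : Set V) (x : Ω) {h : Finset V}
    (hh : (h : Set V) ⊆ hul S B y0 x) {n : ℕ} {x' : Ω} (hx : x' ≤ x) :
    fset S (B h n) x' ⊆ hul S B y0 x := by
  obtain ⟨i, hi⟩ := fin_sub (cls_le B y0 x) h hh
  intro v hv
  refine mem_iUnion.2 ⟨i + 1, Or.inr ?_⟩
  simp only [mem_iUnion]
  exact ⟨h, hi, n, x', hx, hv⟩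

end MNM

open MNM in
theorem specMN : SpecMN := by
  intro Ω _ A V S hΩ hA B y0 hy
  have hyc := adm_countable S hy
  have hb : ∀ x, ∃ z, ∀ y ∈ lvs S B y0 x, y < z := fun x => hΩ.bdd _ (lvs_countable hΩ B hyc x)
  choose f hf using hb
  obtain ⟨d, hd, ⟨x0, hx0⟩, hcl⟩ := hA f
  have hmem : ∀ (s : Finset V), (s : Set V) ⊆ (⋃ x ∈ Iio d, hul S B y0 x) →
      ∃ x, x < d ∧ (s : Set V) ⊆ hul S B y0 x := by
    classical
    intro s hs
    induction s using Finset.induction_on with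
    | empty => exact ⟨x0, hx0, by simp⟩
    | insert a s _ ih =>
      rw [Finset.coe_insert, insert_subset_iff] at hs
      obtain ⟨i, hi, hi'⟩ := ih hs.2
      obtain ⟨j, hj, hj'⟩ := by
        have := hs.1
        simp only [mem_iUnion] at this
        exact this
      refine ⟨max i j, max_lt hi hj, ?_⟩
      rw [Finset.coe_insert, insert_subset_iff]
      exact ⟨hul_mono B y0 (le_max_right _ _) hj', hi'.trans (hul_mono B y0 (le_max_left _ _))⟩
  refine ⟨d, ⋃ x ∈ Iio d, hul S B y0 x, hd, ⟨x0, hx0⟩, ?_, ?_, ?_, ?_⟩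
  · intro v hv
    simp only [mem_iUnion]
    exact ⟨x0, hx0, mem_iUnion.2 ⟨0, hv⟩⟩
  · exact (((hΩ.init d).mono fun x hx => le_of_lt hx).biUnion fun x _ => hul_countable hΩ B hyc x)
  · intro u hu
    simp only [mem_iUnion] at hu
    obtain ⟨x, hx, hu⟩ := hu
    refine ⟨(hf x _ (Or.inl (Or.inr ⟨u, hu, rfl⟩))).trans (hcl x hx), fun v hv => ?_⟩
    simp only [mem_iUnion]
    exact ⟨x, hx, hul_dn B y0 x hu hv⟩
  · intro h hh n
    obtain ⟨x1, hx1, hh1⟩ := hmem h hh
    refine ⟨fun φ hφ x hx => ?_, fun H hB hs x hx => ?_⟩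
    · have hm : max x x1 < d := max_lt hx hx1
      refine (hf (max x x1) (φ x) (Or.inr ?_)).trans (hcl _ hm)
      simp only [mem_iUnion]
      exact ⟨h, hh1.trans (hul_mono B y0 (le_max_right _ _)), n, x, le_max_left _ _, φ, hφ, rfl⟩
    · have hm : max x x1 < d := max_lt hx hx1
      intro v hv
      simp only [mem_iUnion]
      exact ⟨max x x1, hm, hul_fam B y0 _ (hh1.trans (hul_mono B y0 (le_max_right _ _)))
        (n := n) (x' := x) (le_max_left _ _) ⟨H, hB, hs, hv⟩⟩

end Pool.Agent.Lib.MP_8c874d_gt.Zfc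
end

section
set_option autoImplicit false

/-! Module MX: the dichotomy behind maximality. -/

namespace Pool.Agent.Lib.MP_8c874d_gt.Zfc

open Set

namespace MXM

variable {Ω V : Type} [LinearOrder Ω] {A : Set Ω} (S : VS Ω A V)

/-- the pairs of `N` over the vertices of fibre `< k` -/
def cut (N : Code V) (k : ℕ) : Code V :=
  {p | p ∈ N ∧ (∀ v ∈ p.1, S.fib v < k) ∧ ∀ v ∈ p.2, S.fib v < k}

theorem lemma1 (hCB : SpecCB) (hTR : SpecTR) {N : Code V} (hN : ¬ S.Null N) :
    ∃ k : ℕ, S.Acc (S.Dlt k) (fun v => S.fib v < k) (cut S N k) ∅ := by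
  classical
  by_contra hcon
  push Not at hcon
  have hadm : S.Adm (∅ : Set V) := ⟨fun u hu => absurd hu (by simp), Or.inl rfl⟩
  have hw : ∀ k : ℕ, ∃ T, DTest (S.Dlt k) T ∧ ¬ ∃ F : Finset V, S.Clq F ∧
      (∀ v ∈ F, S.Gen T v ∧ S.fib v < k ∧ (∅ : Set V) ⊆ S.dn v) ∧
        inO (cut S N k) ((∅ : Set V) ∪ F) := by
    intro k
    by_contra h
    push Not at h
    apply hcon k
    refine ⟨hadm, fun T hT => ?_⟩
    obtain ⟨F, h1, h2, h3⟩ := h T hT
    exact ⟨F, h1, h2, h3⟩
  choose T hT hT' using hw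
  obtain ⟨T', h1, h2⟩ := hCB Ω A V S T
  have hTR1 := (hTR Ω A V S).1
  have hD : DTest S.DD T' := by
    apply h1
    intro i h n j Z hZ
    have := hT i h n j Z hZ
    rw [hTR1 i j] at this
    split_ifs at this with hj
    · exact this
    · exact absurd this (by simp)
  have hN' : S.Acc S.DD (fun _ => True) N ∅ := by
    by_contra h
    exact hN h
  obtain ⟨F, hF1, hF2, p, hp, hpF, hpG⟩ := hN'.2 T' hD
  obtain ⟨k, hk⟩ : ∃ k : ℕ, ∀ v ∈ F ∪ p.1 ∪ p.2, S.fib v < k := by
    refine ⟨(F ∪ p.1 ∪ p.2).sup S.fib + 1, fun v hv => ?_⟩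
    exact Nat.lt_succ_of_le (Finset.le_sup (f := S.fib) hv)
  apply hT' k
  refine ⟨F, hF1, fun v hv => ⟨(h2 v).1 (hF2 v hv).1 k, hk v ?_, by simp⟩, p, ⟨hp, ?_, ?_⟩, hpF,
    hpG⟩
  · simp [hv]
  · intro v hv
    exact hk v (by simp [hv])
  · intro v hv
    exact hk v (by simp [hv])

end MXM

open MXM

theorem specMX (hCB : SpecCB) (hTR : SpecTR) (hLC : SpecLC) : SpecMX := by
  classical
  intro Ω _ A V S hΩ hA N hN
  obtain ⟨k, hk⟩ := lemma1 S hCB hTR hN
  obtain ⟨γ, hγ⟩ := hLC Ω A V S hΩ hA (S.Dlt k) (fun v => S.fib v < k) (cut S N k) hk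
  refine ⟨{p | (∃ a, p = ({a}, ∅) ∧ S.fib a = k ∧
      ¬ ∀ z ∈ S.Yl a, z ∈ S.ZZ (S.Dlt k) k (cut S N k) (S.lev a)) ∨
      ∃ v, p = ({v}, ∅) ∧ S.lev v ≤ γ}, ?_, ?_⟩
  · intro hM
    obtain ⟨F, hF1, hF2, p, hp, hpF, hpG⟩ := hM.2
      (fun _ n => if n = 0 then Task.loc k (S.ZZ (S.Dlt k) k (cut S N k)) else Task.clo fun _ => γ)
      (by
        intro h n j Z hZ
        dsimp only at hZ
        split_ifs at hZ with hn
        injection hZ with h1 h2
        subst h1
        exact ⟨cut S N k, h2.symm⟩)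
    rcases hp with ⟨a, rfl, ha1, ha2⟩ | ⟨a, rfl, ha⟩
    · have haF : a ∈ F := by
        have := hpF (show a ∈ (({a} : Finset V) : Set V) by simp)
        simpa using this
      have h := ((hF2 a haF).1 ∅ (by simp) 0).2
      exact ha2 (h ha1)
    · have haF : a ∈ F := by
        have := hpF (show a ∈ (({a} : Finset V) : Set V) by simp)
        simpa using this
      have h := ((hF2 a haF).1 ∅ (by simp) 1).1
      obtain ⟨x, hx⟩ := hA _ (S.c_sub a (S.c_lev a))
      exact absurd (h x hx) (not_lt.2 ha)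
  · intro y hy
    by_cases hM : inO {p : Finset V × Finset V | (∃ a, p = ({a}, ∅) ∧ S.fib a = k ∧
      ¬ ∀ z ∈ S.Yl a, z ∈ S.ZZ (S.Dlt k) k (cut S N k) (S.lev a)) ∨
      ∃ v, p = ({v}, ∅) ∧ S.lev v ≤ γ} y
    · exact Or.inr hM
    left
    have hyγ : ∀ v ∈ y, γ < S.lev v := by
      intro v hv
      by_contra h
      exact hM ⟨({v}, ∅), Or.inr ⟨v, rfl, not_lt.1 h⟩, by simpa using hv, by simp⟩
    obtain ⟨a, hay, hak, haY⟩ := hy.2 k
    have hZ : ∀ z ∈ S.Yl a, z ∈ S.ZZ (S.Dlt k) k (cut S N k) (S.lev a) := by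
      by_contra h
      exact hM ⟨({a}, ∅), Or.inl ⟨a, rfl, hak, h⟩, by simpa using hay, by simp⟩
    rcases hZ _ haY with h | ⟨w, hw, h⟩ | ⟨p, hp, hp1, hp2, hp3⟩
    · exact absurd hk h
    · exfalso
      apply h
      apply hγ
      · refine ⟨fun u hu v hv huv => hy.1 u hu.1.1 v hv.1.1 huv, Or.inr ⟨w, ⟨hw, by simp⟩, ?_⟩⟩
        intro u hu huw
        rcases hu.2 with h1 | h1
        · exact absurd h1 huw
        · exact h1
      · intro u hu
        exact hyγ u hu.1.1
    · refine ⟨p, hp.1, fun v hv => (hp1 hv).1, fun v hv hvy => ?_⟩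
      have hva : v ≠ a := by
        rintro rfl
        exact lt_irrefl _ (hp3 v hv)
      rcases hy.1 v hvy a hay hva with h1 | h1
      · exact hp2 v hv ⟨hvy, h1⟩
      · exact absurd (S.dn_lt v a h1) (not_lt.2 (hp3 v hv).le)

end Pool.Agent.Lib.MP_8c874d_gt.Zfc
end

section
set_option autoImplicit false

/-!
MP_8c874d_gt, ZFC counterexample, module OM: `ω₁` and a stationary set with stationary complement.
-/

namespace Pool.Agent.Lib.MP_8c874d_gt.Zfc

open Set Cardinal

namespace OMM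

section
variable {Ω : Type} [LinearOrder Ω]

/-- above every point there is an `f`-closed point -/
lemma exists_closed (hΩ : Om1 Ω) (f : Ω → Ω) (x0 : Ω) : ∃ d, x0 < d ∧ FCl f d := by
  have hg : ∀ x : Ω, ∃ y, x < y ∧ ∀ x', x' ≤ x → f x' < y := by
    intro x
    obtain ⟨y, hy⟩ := hΩ.bdd (insert x (f '' Iic x)) (((hΩ.init x).image f).insert x)
    exact ⟨y, hy x (mem_insert _ _), fun x' hx' =>
      hy _ (mem_insert_of_mem _ (mem_image_of_mem f hx'))⟩
  choose g hg1 hg2 using hg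
  let s : ℕ → Ω := fun n => Nat.rec x0 (fun _ x => g x) n
  have hs : ∀ n, s (n + 1) = g (s n) := fun n => rfl
  obtain ⟨d, hd, hmin⟩ := WellFounded.has_min hΩ.wf.wf {y | ∀ n, s n < y} (by
    obtain ⟨y, hy⟩ := hΩ.bdd (range s) (countable_range s)
    exact ⟨y, fun n => hy _ (mem_range_self n)⟩)
  refine ⟨d, hd 0, ⟨⟨x0, hd 0⟩, fun x hx => ?_⟩⟩
  have : ¬ ∀ n, s n < x := fun h => hmin x h hx
  push Not at this
  obtain ⟨n, hn⟩ := this
  exact (hg2 (s n) x hn).trans ((hs n) ▸ hd (n + 1))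

/-- a bistationary set -/
lemma exists_stat (hΩ : Om1 Ω) (x0 : Ω) (e : Ω → Set ℕ) (he : Function.Injective e) :
    ∃ A : Set Ω, Stat A ∧ Stat Aᶜ := by
  by_contra hno
  push Not at hno
  have h1 : ∀ n : ℕ, ∃ (p : Prop) (f : Ω → Ω), ∀ d, FCl f d → (n ∈ e d ↔ p) := by
    intro n
    by_cases hs : Stat {x | n ∈ e x}
    · have h2 := hno _ hs
      unfold Stat at h2
      push Not at h2
      obtain ⟨f, hf⟩ := h2
      refine ⟨True, f, fun d hd => ?_⟩
      by_contra hnd
      exact hf d (fun h => hnd (iff_true_intro h)) hd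
    · unfold Stat at hs
      push Not at hs
      obtain ⟨f, hf⟩ := hs
      refine ⟨False, f, fun d hd => ?_⟩
      exact iff_of_false (fun h => hf d h hd) not_false
  choose p f hf using h1
  have hb : ∀ x : Ω, ∃ y, ∀ n, f n x < y := by
    intro x
    obtain ⟨y, hy⟩ := hΩ.bdd (range fun n => f n x) (countable_range _)
    exact ⟨y, fun n => hy _ (mem_range_self n)⟩
  choose F hF using hb
  have hFf : ∀ d, FCl F d → ∀ n, FCl (f n) d := fun d hd n =>
    ⟨hd.1, fun x hx => (hF x n).trans (hd.2 x hx)⟩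
  obtain ⟨d1, _, hd1⟩ := exists_closed hΩ F x0
  obtain ⟨d2, h12, hd2⟩ := exists_closed hΩ F d1
  have : e d1 = e d2 := by
    ext n
    rw [hf n d1 (hFf d1 hd1 n), hf n d2 (hFf d2 hd2 n)]
  exact absurd (he this) (ne_of_lt h12)

end

/-- `ω₁` as a type -/
abbrev W1 : Type := (ord (aleph 1)).ToType

lemma mk_W1 : #W1 = aleph 1 := by simp [W1]

lemma om1 : Om1 W1 := by
  have hIio : ∀ x : W1, (Iio x).Countable := by
    intro x
    have h : #(Iio x) < aleph 1 := by
      simpa using mk_Iio_lt x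
    exact (countable_iff_lt_aleph_one _).mpr h
  have hIic : ∀ x : W1, (Iic x).Countable := by
    intro x
    rw [← Iio_insert]
    exact (hIio x).insert x
  refine ⟨inferInstance, hIic, fun s hs => ?_⟩
  by_contra hno
  push Not at hno
  have huniv : (Set.univ : Set W1) ⊆ ⋃ y ∈ s, Iic y := by
    intro x _
    obtain ⟨y, hy, hxy⟩ := hno x
    exact mem_biUnion hy hxy
  have hc : (Set.univ : Set W1).Countable := (hs.biUnion (fun y _ => hIic y)).mono huniv
  have h2 : #W1 ≤ aleph0 := mk_le_aleph0_iff.mpr (countable_univ_iff.mp hc)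
  rw [mk_W1] at h2
  exact absurd h2 (not_le_of_gt (by rw [← succ_aleph0]; exact Order.lt_succ _))

lemma exists_inj : ∃ e : W1 → Set ℕ, Function.Injective e := by
  have h : #W1 ≤ #(Set ℕ) := by
    rw [mk_W1, mk_set, mk_nat, two_power_aleph0]
    exact aleph_one_le_continuum
  obtain ⟨e⟩ := h
  exact ⟨e, e.injective⟩

end OMM

theorem specOM : SpecOM := by
  obtain ⟨e, he⟩ := OMM.exists_inj
  have hom := OMM.om1
  obtain ⟨x0, _⟩ := hom.bdd ∅ countable_empty
  obtain ⟨A, hA, hAc⟩ := OMM.exists_stat hom x0 e he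
  refine ⟨OMM.W1, inferInstance, hom, NoUf.inj e he (NoUf.countable ℕ).set,
    {a ∈ A | ∃ x, x < a}, fun f => ?_, fun f => ?_, fun a ha => ha.2⟩
  · obtain ⟨d, hd, hf⟩ := hA f
    exact ⟨d, ⟨hd, hf.1⟩, hf⟩
  · obtain ⟨d, hd, hf⟩ := hAc f
    exact ⟨d, fun h => hd h.1, hf⟩

end Pool.Agent.Lib.MP_8c874d_gt.Zfc
end

section
set_option autoImplicit false

/-!
MP_8c874d_gt, module TH: thickness.
-/

namespace Pool.Agent.Lib.MP_8c874d_gt.Zfc

namespace THM

variable {Ω V : Type} [LinearOrder Ω] {A : Set Ω}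

/-- one block on top of `y0`, with a top -/
theorem adm_insert (S : VS Ω A V) {z : Set V} {a : V} (hz : S.Clq z) (ha : z ⊆ S.dn a) :
    S.Adm (insert a z) := by
  refine ⟨?_, Or.inr ⟨a, Set.mem_insert _ _, ?_⟩⟩
  · intro u hu v hv huv
    rcases hu with rfl | hu
    · rcases hv with rfl | hv
      · exact absurd rfl huv
      · exact Or.inr (ha hv)
    · rcases hv with rfl | hv
      · exact Or.inl (ha hu)
      · exact hz u hu v hv huv
  · intro u hu hne
    rcases hu with rfl | hu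
    · exact absurd rfl hne
    · exact ha hu

end THM

open THM in
theorem specTH (hBL : SpecBL) : SpecTH := by
  classical
  intro Ω _ A V S hO hA hmin T hT
  have hB := hBL Ω A V S hO hA hmin T hT
  have : Nonempty V := by
    obtain ⟨_, a, _⟩ := hB ∅ ⟨fun u hu => absurd hu (Set.notMem_empty u), Or.inl rfl⟩
      (fun u hu => absurd hu (Set.notMem_empty u)) 0
    exact ⟨a⟩
  choose! Z a h1 h2 h3 h4 h5 h6 h7 h8 using hB
  -- the sequence
  let s : ℕ → Set V := fun n => Nat.rec ∅ (fun k y => insert (a y k) (Z y k)) n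
  have s0 : s 0 = ∅ := rfl
  have sS : ∀ k, s (k + 1) = insert (a (s k) k) (Z (s k) k) := fun k => rfl
  have hs : ∀ k, S.Adm (s k) ∧ ∀ v ∈ s k, S.Gen T v := by
    intro k
    induction k with
    | zero =>
      rw [s0]
      exact ⟨⟨fun u hu => absurd hu (Set.notMem_empty u), Or.inl rfl⟩,
        fun u hu => absurd hu (Set.notMem_empty u)⟩
    | succ k ih =>
      obtain ⟨i1, i2⟩ := ih
      rw [sS]
      refine ⟨adm_insert S (h2 _ i1 i2 k) (h5 _ i1 i2 k), ?_⟩
      intro v hv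
      rcases hv with rfl | hv
      · exact h7 _ i1 i2 k
      · exact h3 _ i1 i2 k v hv
  have mono1 : ∀ k, s k ⊆ Z (s k) k := fun k => h1 _ (hs k).1 (hs k).2 k
  have mono2 : ∀ k, s k ⊆ s (k + 1) := fun k => by
    rw [sS]
    exact (mono1 k).trans (Set.subset_insert _ _)
  have mono : Monotone s := monotone_nat_of_le_succ mono2
  have above : ∀ k j, ∀ u ∈ s (k + j), u ∉ s k → s k ⊆ S.dn u := by
    intro k j
    induction j with
    | zero => intro u hu hn; exact absurd hu hn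
    | succ j ih =>
      intro u hu hn
      have hm : s k ⊆ s (k + j) := mono (by omega)
      have hu' : u ∈ insert (a (s (k + j)) (k + j)) (Z (s (k + j)) (k + j)) := hu
      rcases Classical.em (u ∈ s (k + j)) with hc | hc
      · exact ih u hc hn
      · rcases hu' with rfl | hu'
        · exact hm.trans ((mono1 _).trans (h5 _ (hs _).1 (hs _).2 _))
        · exact hm.trans (h4 _ (hs _).1 (hs _).2 _ u hu' hc)
  refine ⟨⋃ k, s k, ⟨?_, ?_⟩, ?_⟩
  · intro u hu v hv huv
    obtain ⟨i, hi⟩ := Set.mem_iUnion.1 hu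
    obtain ⟨j, hj⟩ := Set.mem_iUnion.1 hv
    exact (hs (max i j)).1.1 u (mono (le_max_left i j) hi) v (mono (le_max_right i j) hj) huv
  · intro k
    refine ⟨a (s k) k, Set.mem_iUnion.2 ⟨k + 1, Set.mem_insert _ _⟩, h6 _ (hs k).1 (hs k).2 k, ?_⟩
    have hE : (⋃ k, s k) ∩ S.dn (a (s k) k) = Z (s k) k := by
      apply Set.Subset.antisymm
      · rintro u ⟨hu, hd⟩
        have hlt : S.lev u < S.lev (a (s k) k) := S.dn_lt _ _ hd
        obtain ⟨j, hj⟩ := Set.mem_iUnion.1 hu
        have hmem : u ∈ s (k + 1) := by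
          by_contra hn
          have hj' : u ∈ s (k + 1 + j) := mono (by omega) hj
          have := above (k + 1) j u hj' hn (Set.mem_insert _ _)
          exact absurd (S.dn_lt _ _ this) (not_lt.2 hlt.le)
        rcases hmem with rfl | hmem
        · exact absurd hlt (lt_irrefl _)
        · exact hmem
      · intro u hu
        exact ⟨Set.mem_iUnion.2 ⟨k + 1, Set.mem_insert_of_mem _ hu⟩,
          h5 _ (hs k).1 (hs k).2 k hu⟩
    rw [hE]
    exact h8 _ (hs k).1 (hs k).2 k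
  · intro v hv
    obtain ⟨i, hi⟩ := Set.mem_iUnion.1 hv
    exact (hs i).2 v hi

end Pool.Agent.Lib.MP_8c874d_gt.Zfc
end

section
set_option autoImplicit false

/-!
MP_8c874d_gt, module TR: comparison of `DD` and `Dlt k`.
-/

namespace Pool.Agent.Lib.MP_8c874d_gt.Zfc

namespace TRM

variable {Ω V : Type} [LinearOrder Ω] {A : Set Ω}

/-- trimming a task -/
noncomputable def trim (k : ℕ) : Task Ω V → Task Ω V
  | Task.loc j Z => if j < k then Task.loc j Z else Task.clo id
  | t => t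

theorem dlt (S : VS Ω A V) (k j : ℕ) : S.Dlt k j = if j < k then S.DD j else ∅ := by
  induction k with
  | zero => simp [VS.Dlt]
  | succ k ih =>
    by_cases hj : j = k
    · subst hj
      simp [VS.Dlt, VS.DD]
    · have h1 : S.Dlt (k + 1) j = S.Dlt k j := by
        simp [VS.Dlt, hj]
      rw [h1, ih]
      by_cases h2 : j < k
      · rw [if_pos h2, if_pos (by omega)]
      · rw [if_neg h2, if_neg (by omega)]

end TRM

theorem specTR : SpecTR := by
  intro Ω _ A V S
  refine ⟨TRM.dlt S, ?_⟩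
  intro T hT k
  refine ⟨fun h n => TRM.trim k (T h n), ?_, ?_⟩
  · intro h n j Z hZ
    rw [TRM.dlt]
    cases hc : T h n with
    | clo φ => simp [hc, TRM.trim] at hZ
    | fam H => simp [hc, TRM.trim] at hZ
    | pair u H => simp [hc, TRM.trim] at hZ
    | loc i W =>
      by_cases hi : i < k
      · simp only [hc, TRM.trim, if_pos hi, Task.loc.injEq] at hZ
        obtain ⟨rfl, rfl⟩ := hZ
        rw [if_pos hi]
        exact hT h n i W hc
      · simp [hc, TRM.trim, hi] at hZ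
  · intro v hv hG h hh n
    have := hG h hh n
    cases hc : T h n with
    | clo φ => simpa [hc, TRM.trim] using this
    | fam H => simpa [hc, TRM.trim] using this
    | pair u H => simpa [hc, TRM.trim] using this
    | loc i W =>
      by_cases hi : i < k
      · simpa [hc, TRM.trim, hi] using this
      · refine ⟨trivial, ?_⟩
        intro h1
        omega

end Pool.Agent.Lib.MP_8c874d_gt.Zfc
end

section
set_option autoImplicit false

/-!
MP_8c874d_gt, ZFC counterexample, module VX: vertex systems exist.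
-/

namespace Pool.Agent.Lib.MP_8c874d_gt.Zfc

open Set

namespace VXM

/-- trees of vertices -/
inductive Vx (Ω : Type) : Type
  | bot : Vx Ω
  | mk : ℕ → Ω → Set Ω → Set (Set ℕ) → (ℕ → Vx Ω) → Vx Ω

variable {Ω : Type}

/-- the label of the node with a given address -/
def lab : Vx Ω → List ℕ → Option (ℕ × Ω × Set Ω × Set (Set ℕ))
  | .bot, _ => none
  | .mk k d c l _, [] => some (k, d, c, l)
  | .mk _ _ _ _ g, n :: p => lab (g n) p

lemma lab_injective : ∀ v w : Vx Ω, lab v = lab w → v = w := by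
  intro v
  induction v with
  | bot =>
    intro w h
    cases w with
    | bot => rfl
    | mk k d c l g =>
      have := congrFun h []
      simp [lab] at this
  | mk k d c l g ih =>
    intro w h
    cases w with
    | bot =>
      have := congrFun h []
      simp [lab] at this
    | mk k' d' c' l' g' =>
      have h0 := congrFun h []
      simp only [lab, Option.some.injEq, Prod.mk.injEq] at h0
      obtain ⟨rfl, rfl, rfl, rfl⟩ := h0
      have hg : g = g' := by
        funext n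
        apply ih
        funext p
        have := congrFun h (n :: p)
        simpa [lab] using this
      rw [hg]

lemma noUf_option {T : Type} (hT : NoUf T) : NoUf (Option T) :=
  NoUf.inj (Equiv.optionEquivSumPUnit.{0} T) (Equiv.injective _) (hT.sum (NoUf.countable PUnit))

lemma noUf_Vx (hΩ : NoUf Ω) : NoUf (Vx Ω) := by
  refine NoUf.inj (fun v : Vx Ω => {p : List ℕ × Option (ℕ × Ω × Set Ω × Set (Set ℕ)) |
    lab v p.1 = p.2}) ?_ ((NoUf.countable (List ℕ)).prod (noUf_option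
      ((NoUf.countable ℕ).prod (hΩ.prod (hΩ.set.prod (NoUf.countable ℕ).set.set))))).set
  intro v w h
  apply lab_injective
  funext p
  have h1 : (p, lab v p) ∈ {p : List ℕ × Option (ℕ × Ω × Set Ω × Set (Set ℕ)) |
      lab v p.1 = p.2} := rfl
  have h2 : {p : List ℕ × Option (ℕ × Ω × Set Ω × Set (Set ℕ)) | lab v p.1 = p.2}
      = {p | lab w p.1 = p.2} := h
  rw [h2] at h1
  exact h1.symm

/-- the set with the level -/
def lv : Vx Ω → Set Ω
  | .bot => ∅
  | .mk _ d _ _ _ => {d}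

/-- the closed set -/
def cS : Vx Ω → Set Ω
  | .bot => ∅
  | .mk _ _ c _ _ => c

variable [LinearOrder Ω]

/-- valid trees -/
def valid (A : Set Ω) : Vx Ω → Prop
  | .bot => False
  | .mk _ d c _ g => d ∈ c ∧ c ⊆ A ∧ (∀ x ∈ c, x ≤ d) ∧ Cl c ∧
      ∀ n, g n = .bot ∨ (valid A (g n) ∧
        ∀ x ∈ lv (g n), x < d ∧ x ∈ c ∧ ∃ γ, γ < x ∧ ∀ y ∈ cS (g n), γ < y → y ∈ c)

/-- vertices -/
abbrev Vtx (A : Set Ω) : Type := {v : Vx Ω // valid A v}

variable {A : Set Ω}

/-- level -/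
def lev : Vtx A → Ω
  | ⟨.bot, h⟩ => h.elim
  | ⟨.mk _ d _ _ _, _⟩ => d

/-- fibre -/
def fib : Vtx A → ℕ
  | ⟨.bot, h⟩ => h.elim
  | ⟨.mk k _ _ _ _, _⟩ => k

/-- children -/
def ch : Vtx A → ℕ → Vx Ω
  | ⟨.bot, h⟩ => h.elim
  | ⟨.mk _ _ _ _ g, _⟩ => g

/-- label for `Yl` -/
def yl : Vtx A → Set (Set ℕ)
  | ⟨.bot, h⟩ => h.elim
  | ⟨.mk _ _ _ l _, _⟩ => l

lemma lv_eq (v : Vtx A) : lv v.1 = {lev v} := by
  obtain ⟨v, hv⟩ := v
  cases v with
  | bot => exact hv.elim
  | mk k d c l g => rfl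

/-- lower neighbours -/
def dn (v : Vtx A) : Set (Vtx A) := {u | ∃ n, ch v n = u.1}

/-- index set of a set of vertices -/
def idx (f : ℕ → Vx Ω) (z : Set (Vtx A)) : Set ℕ := {n | ∃ u ∈ z, f n = u.1}

lemma base (v : Vtx A) : lev v ∈ cS v.1 ∧ cS v.1 ⊆ A ∧ (∀ x ∈ cS v.1, x ≤ lev v) ∧ Cl (cS v.1) ∧
    ∀ n, ch v n = .bot ∨ (valid A (ch v n) ∧
        ∀ x ∈ lv (ch v n), x < lev v ∧ x ∈ cS v.1 ∧
          ∃ γ, γ < x ∧ ∀ y ∈ cS (ch v n), γ < y → y ∈ cS v.1) := by
  obtain ⟨v, hv⟩ := v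
  cases v with
  | bot => exact hv.elim
  | mk k d c l g => exact hv

lemma dn_spec (v u : Vtx A) (hu : u ∈ dn v) : lev u < lev v ∧ lev u ∈ cS v.1 ∧
    ∃ γ, γ < lev u ∧ ∀ y ∈ cS u.1, γ < y → y ∈ cS v.1 := by
  obtain ⟨n, hn⟩ := hu
  rcases (base v).2.2.2.2 n with h | ⟨_, h⟩
  · exfalso
    have hv := u.2
    rw [← hn, h] at hv
    exact hv
  · rw [hn, lv_eq] at h
    exact h _ rfl

lemma idx_inj (f : ℕ → Vx Ω) (g : Set (Vtx A)) (hf : ∀ u ∈ g, ∃ n, f n = u.1)
    (z z' : Set (Vtx A)) (hz : z ⊆ g) (h : idx f z = idx f z') : z ⊆ z' := by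
  intro u hu
  obtain ⟨n, hn⟩ := hf u (hz hu)
  have h1 : n ∈ idx f z := ⟨u, hu, hn⟩
  rw [h] at h1
  obtain ⟨w, hw, hw'⟩ := h1
  have : u = w := Subtype.ext (hn.symm.trans hw')
  rw [this]
  exact hw

end VXM

open VXM in
theorem specVX : SpecVX := by
  intro Ω _ _ hΩ A
  refine ⟨Vtx A, NoUf.inj Subtype.val Subtype.val_injective (noUf_Vx hΩ), ⟨{
    lev := lev
    fib := fib
    c := fun v => cS v.1
    dn := dn
    Yl := fun v => {z | z ⊆ dn v ∧ idx (ch v) z ∈ yl v}
    c_lev := fun v => (base v).1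
    c_sub := fun v => (base v).2.1
    c_le := fun v => (base v).2.2.1
    c_cl := fun v => (base v).2.2.2.1
    dn_countable := fun v => by
      have h : dn v = Subtype.val ⁻¹' (range (ch v)) := by
        ext u
        rfl
      rw [h]
      exact (countable_range _).preimage_of_injOn Subtype.val_injective.injOn
    dn_lt := fun v u hu => (dn_spec v u hu).1
    dn_mem := fun v u hu => (dn_spec v u hu).2.1
    dn_tail := fun v u hu => (dn_spec v u hu).2.2
    Yl_sub := fun v z hz => hz.1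
    ext := ?_ }⟩⟩
  intro k d c' g Z hd hA hle hcl hg hgu
  obtain ⟨f, hf⟩ := ((hg.image Subtype.val).insert (Vx.bot : Vx Ω)).exists_eq_range ⟨_, mem_insert _ _⟩
  have hfg : ∀ u ∈ g, ∃ n, f n = u.1 := by
    intro u hu
    have : u.1 ∈ range f := by
      rw [← hf]
      exact mem_insert_of_mem _ (mem_image_of_mem _ hu)
    exact this
  have hfn : ∀ n, f n = Vx.bot ∨ ∃ u ∈ g, f n = u.1 := by
    intro n
    have : f n ∈ insert (Vx.bot : Vx Ω) (Subtype.val '' g) := by
      rw [hf]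
      exact mem_range_self n
    rcases this with h | ⟨u, hu, h⟩
    · exact Or.inl h
    · exact Or.inr ⟨u, hu, h.symm⟩
  have hval : valid A (Vx.mk k d c' {s | ∃ z ∈ Z, z ⊆ g ∧ s = idx f z} f) := by
    refine ⟨hd, hA, hle, hcl, fun n => ?_⟩
    rcases hfn n with h | ⟨u, hu, h⟩
    · exact Or.inl h
    · right
      rw [h, lv_eq]
      refine ⟨u.2, fun x hx => ?_⟩
      rw [mem_singleton_iff] at hx
      subst hx
      exact hgu u hu
  have hdn : dn (⟨_, hval⟩ : Vtx A) = g := by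
    ext u
    constructor
    · rintro ⟨n, hn⟩
      change f n = u.1 at hn
      rcases hfn n with h | ⟨w, hw, h⟩
      · exfalso
        have := u.2
        rw [← hn, h] at this
        exact this
      · have : u = w := Subtype.ext (hn.symm.trans h)
        rw [this]; exact hw
    · intro hu
      exact hfg u hu
  refine ⟨⟨_, hval⟩, rfl, rfl, rfl, hdn, fun z hz => ?_⟩
  constructor
  · rintro ⟨_, hz2⟩
    obtain ⟨z', hz', hz'g, he⟩ := hz2
    change idx f z = idx f z' at he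
    have : z = z' := Subset.antisymm (idx_inj f g hfg z z' hz he)
      (idx_inj f g hfg z' z hz'g he.symm)
    rw [this]; exact hz'
  · intro hzZ
    exact ⟨hdn ▸ hz, z, hzZ, hz, rfl⟩

end Pool.Agent.Lib.MP_8c874d_gt.Zfc
end
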