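import Pool.Agent.Lib.MP_8c874d_gt.Q2.Spec
import Pool.Agent.Lib.MP_8c874d_gt.Zfc.VX

section
/-!
Module RA: Radon spaces are hereditarily alpha-realcompact.
-/
set_option autoImplicit false

namespace Pool.Agent.Lib.MP_8c874d_gt.Q2

open Set Cardinal Filter

namespace RaM

section

variable {Y : Type} [TopologicalSpace Y] {𝓕 : Set (Set Y)}

theorem add_mem (hF : IsMaximalCentered 𝓕) {C : Set Y} (hC : IsClosed C)
    (h : ∀ 𝓢 : Set (Set Y), 𝓢 ⊆ 𝓕 → 𝓢.Finite → (⋂₀ 𝓢 ∩ C).Nonempty) : C ∈ 𝓕 := by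
  classical
  refine hF.2.2 (insert C 𝓕) ?_ ?_ (subset_insert _ _) (mem_insert _ _)
  · intro K hK
    rcases hK with rfl | hK
    · exact hC
    · exact hF.1 K hK
  · intro 𝓢 h𝓢 hfin
    obtain ⟨x, hx⟩ := h (𝓢 \ {C}) (by
      intro K hK
      rcases h𝓢 hK.1 with h1 | h1
      · exact absurd h1 hK.2
      · exact h1) (hfin.subset sdiff_subset)
    refine ⟨x, fun K hK => ?_⟩
    by_cases hKC : K = C
    · rw [hKC]; exact hx.2
    · exact hx.1 K ⟨hK, hKC⟩

theorem up_mem (hF : IsMaximalCentered 𝓕) {K C : Set Y} (hK : K ∈ 𝓕) (hC : IsClosed C)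
    (hKC : K ⊆ C) : C ∈ 𝓕 := by
  refine add_mem hF hC fun 𝓢 h𝓢 hfin => ?_
  obtain ⟨x, hx⟩ := hF.2.1 (insert K 𝓢) (insert_subset hK h𝓢) (hfin.insert K)
  exact ⟨x, fun L hL => hx L (mem_insert_of_mem _ hL), hKC (hx K (mem_insert _ _))⟩

theorem univ_mem (hF : IsMaximalCentered 𝓕) : (univ : Set Y) ∈ 𝓕 := by
  refine add_mem hF isClosed_univ fun 𝓢 h𝓢 hfin => ?_
  rw [inter_univ]
  exact hF.2.1 𝓢 h𝓢 hfin

theorem iInter_mem (hF : IsMaximalCentered 𝓕) (hcip : CIP 𝓕) {K : ℕ → Set Y}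
    (hK : ∀ n, K n ∈ 𝓕) : (⋂ n, K n) ∈ 𝓕 := by
  refine add_mem hF (isClosed_iInter fun n => hF.1 _ (hK n)) fun 𝓢 h𝓢 hfin => ?_
  obtain ⟨x, hx⟩ := hcip (𝓢 ∪ range K) (by
    apply union_subset h𝓢
    rintro _ ⟨n, rfl⟩
    exact hK n) (hfin.countable.union (countable_range K))
  exact ⟨x, fun L hL => hx L (Or.inl hL), mem_iInter.2 fun n => hx _ (Or.inr ⟨n, rfl⟩)⟩

theorem inter_mem (hF : IsMaximalCentered 𝓕) {K L : Set Y} (hK : K ∈ 𝓕) (hL : L ∈ 𝓕) :
    K ∩ L ∈ 𝓕 := by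
  refine add_mem hF ((hF.1 K hK).inter (hF.1 L hL)) fun 𝓢 h𝓢 hfin => ?_
  obtain ⟨x, hx⟩ := hF.2.1 (insert K (insert L 𝓢)) (insert_subset hK (insert_subset hL h𝓢))
    ((hfin.insert L).insert K)
  exact ⟨x, fun M hM => hx M (mem_insert_of_mem _ (mem_insert_of_mem _ hM)),
    hx K (mem_insert _ _), hx L (mem_insert_of_mem _ (mem_insert _ _))⟩

theorem exists_disj (hF : IsMaximalCentered 𝓕) {C : Set Y} (hC : IsClosed C) (h : C ∉ 𝓕) :
    ∃ K ∈ 𝓕, K ∩ C = ∅ := by
  by_contra hcon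
  push Not at hcon
  apply h
  refine add_mem hF hC fun 𝓢 h𝓢 hfin => ?_
  have h1 : ⋂₀ 𝓢 ∈ 𝓕 := by
    induction 𝓢, hfin using Set.Finite.induction_on with
    | empty => rw [sInter_empty]; exact univ_mem hF
    | @insert a s _ _ ih =>
      rw [sInter_insert]
      exact inter_mem hF (h𝓢 (mem_insert _ _)) (ih (fun x hx => h𝓢 (mem_insert_of_mem _ hx)))
  exact hcon _ h1

theorem nonempty_of_mem (hF : IsMaximalCentered 𝓕) {K : Set Y} (hK : K ∈ 𝓕) : K.Nonempty := by
  have := hF.2.1 {K} (singleton_subset_iff.2 hK) (finite_singleton K)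
  rwa [sInter_singleton] at this

end

section

variable {X : Type} [TopologicalSpace X] {Y : Set X} (𝓕 : Set (Set Y))

/-- large sets -/
def Lg (B : Set X) : Prop := ∃ K ∈ 𝓕, K ⊆ Subtype.val ⁻¹' B

variable {𝓕}

theorem lg_closed (hF : IsMaximalCentered 𝓕) {D : Set X} (hD : IsClosed D) :
    Lg 𝓕 D ∨ Lg 𝓕 Dᶜ := by
  by_cases h : (Subtype.val ⁻¹' D : Set Y) ∈ 𝓕
  · exact Or.inl ⟨_, h, Subset.rfl⟩
  · obtain ⟨K, hK, hKD⟩ := exists_disj hF (hD.preimage continuous_subtype_val) h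
    refine Or.inr ⟨K, hK, fun x hx hxD => ?_⟩
    have : x ∈ K ∩ Subtype.val ⁻¹' D := ⟨hx, hxD⟩
    rw [hKD] at this
    exact this

theorem lg_compl (hF : IsMaximalCentered 𝓕) {B : Set X} (h1 : Lg 𝓕 B) (h2 : Lg 𝓕 Bᶜ) : False := by
  obtain ⟨K, hK, hKB⟩ := h1
  obtain ⟨L, hL, hLB⟩ := h2
  obtain ⟨x, hx⟩ := nonempty_of_mem hF (inter_mem hF hK hL)
  exact hLB hx.2 (hKB hx.1)

theorem lg_mono {B C : Set X} (h : Lg 𝓕 B) (hBC : B ⊆ C) : Lg 𝓕 C := by
  obtain ⟨K, hK, hKB⟩ := h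
  exact ⟨K, hK, hKB.trans (preimage_mono hBC)⟩

theorem lg_iInter (hF : IsMaximalCentered 𝓕) (hcip : CIP 𝓕) {B : ℕ → Set X}
    (h : ∀ n, Lg 𝓕 (B n)) : Lg 𝓕 (⋂ n, B n) := by
  choose K hK hKB using h
  refine ⟨_, iInter_mem hF hcip hK, fun x hx => ?_⟩
  exact mem_iInter.2 fun n => hKB n (mem_iInter.1 hx n)

theorem lg_borel (hF : IsMaximalCentered 𝓕) (hcip : CIP 𝓕) {B : Set X}
    (hB : @MeasurableSet X (borel X) B) : Lg 𝓕 B ∨ Lg 𝓕 Bᶜ := by
  have h1 : borel X = MeasurableSpace.generateFrom {s | IsClosed s} := borel_eq_generateFrom_isClosed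
  rw [h1] at hB
  induction B, hB using MeasurableSpace.generateFrom_induction with
  | hC t ht _ => exact lg_closed hF ht
  | empty =>
    right
    refine ⟨univ, univ_mem hF, fun x _ => ?_⟩
    simp
  | compl t _ ih =>
    rw [compl_compl]
    exact ih.symm
  | iUnion s _ ih =>
    by_cases h : ∃ n, Lg 𝓕 (s n)
    · obtain ⟨n, hn⟩ := h
      exact Or.inl (lg_mono hn (subset_iUnion s n))
    · push Not at h
      right
      rw [compl_iUnion]
      exact lg_iInter hF hcip fun n => (ih n).resolve_left (h n)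

open Classical in
/-- the `0-1`-measure -/
noncomputable def mea (hF : IsMaximalCentered 𝓕) (hcip : CIP 𝓕) : @MeasureTheory.Measure X (borel X) :=
  @MeasureTheory.Measure.ofMeasurable X (borel X) (fun s _ => if Lg 𝓕 s then 1 else 0)
    (by
      rw [if_neg]
      rintro ⟨K, hK, hKB⟩
      obtain ⟨x, hx⟩ := nonempty_of_mem hF hK
      exact hKB hx)
    (by
      intro f hf hd
      by_cases h : ∃ n, Lg 𝓕 (f n)
      · obtain ⟨n, hn⟩ := h
        rw [if_pos (lg_mono hn (subset_iUnion f n)), tsum_eq_single n, if_pos hn]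
        intro k hk
        rw [if_neg]
        intro hk'
        refine lg_compl hF hn (lg_mono hk' ?_)
        exact (hd hk).subset_compl_right
      · push Not at h
        rw [if_neg]
        · rw [ENNReal.tsum_eq_zero.2]
          intro n
          rw [if_neg (h n)]
        · intro hu
          refine lg_compl hF hu ?_
          rw [compl_iUnion]
          exact lg_iInter hF hcip fun n => (lg_borel hF hcip (hf n)).resolve_left (h n))

open Classical in
theorem mea_apply (hF : IsMaximalCentered 𝓕) (hcip : CIP 𝓕) {B : Set X}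
    (hB : @MeasurableSet X (borel X) B) : mea hF hcip B = if Lg 𝓕 B then 1 else 0 :=
  @MeasureTheory.Measure.ofMeasurable_apply X (borel X) _ _ _ B hB

theorem closed_meas {D : Set X} (hD : IsClosed D) : @MeasurableSet X (borel X) D := by
  letI : MeasurableSpace X := borel X
  haveI : BorelSpace X := ⟨rfl⟩
  exact hD.measurableSet

theorem compl_meas {D : Set X} (hD : IsClosed D) : @MeasurableSet X (borel X) Dᶜ := by
  letI : MeasurableSpace X := borel X
  haveI : BorelSpace X := ⟨rfl⟩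
  exact hD.measurableSet.compl

theorem exists_compact [T2Space X] (hR : RadonSpace X) (hF : IsMaximalCentered 𝓕) (hcip : CIP 𝓕)
    {B : Set X} (hB : @MeasurableSet X (borel X) B) (hl : Lg 𝓕 B) :
    ∃ C : Set X, C ⊆ B ∧ IsCompact C ∧ Lg 𝓕 C := by
  classical
  have hu : mea hF hcip (univ : Set X) < ⊤ := by
    rw [mea_apply hF hcip (@MeasurableSet.univ X (borel X))]
    split_ifs <;> simp
  have h1 := hR (mea hF hcip) hu B hB
  rw [mea_apply hF hcip hB, if_pos hl] at h1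
  by_contra hcon
  push Not at hcon
  have h2 : (⨆ (K : Set X) (_ : K ⊆ B ∧ IsCompact K), mea hF hcip K) = 0 := by
    simp only [ENNReal.iSup_eq_zero]
    intro K hK
    have hKm : @MeasurableSet X (borel X) K := closed_meas hK.2.isClosed
    rw [mea_apply hF hcip hKm, if_neg (hcon K hK.1 hK.2)]
  rw [h2] at h1
  exact one_ne_zero h1

end

end RaM

open RaM in
/-- RA. -/
theorem specRA : SpecRA := by
  intro X _ _ hR Y 𝓕 hF hcip
  by_contra hne
  have huniv : Lg 𝓕 (univ : Set X) := ⟨univ, univ_mem hF, fun x _ => by simp⟩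
  obtain ⟨C, -, hCc, hCl⟩ := exists_compact hR hF hcip (@MeasurableSet.univ X (borel X)) huniv
  -- a common point of the closed sets of measure one
  have hx : ∃ x, ∀ D : Set X, IsClosed D → Lg 𝓕 D → x ∈ D := by
    let 𝓓 : Set (Set X) := {D | IsClosed D ∧ Lg 𝓕 D}
    have h1 : (C ∩ ⋂ D : 𝓓, (D : Set X)).Nonempty := by
      refine hCc.inter_iInter_nonempty _ (fun D => D.2.1) fun u => ?_
      have h2 : Lg 𝓕 (C ∩ ⋂ D ∈ u, ((D : 𝓓) : Set X)) := by
        classical
        induction u using Finset.induction_on with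
        | empty => simpa using hCl
        | insert a s _ ih =>
          obtain ⟨K, hK, hKB⟩ := ih
          obtain ⟨L, hL, hLB⟩ := a.2.2
          refine ⟨K ∩ L, inter_mem hF hK hL, fun x hx => ?_⟩
          have h3 := hKB hx.1
          have h4 := hLB hx.2
          refine ⟨h3.1, ?_⟩
          rw [Finset.set_biInter_insert]
          exact ⟨h4, h3.2⟩
      obtain ⟨K, hK, hKB⟩ := h2
      obtain ⟨x, hx⟩ := nonempty_of_mem hF hK
      exact ⟨x, hKB hx⟩
    obtain ⟨x, -, hx⟩ := h1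
    exact ⟨x, fun D hD hDl => mem_iInter.1 hx ⟨D, hD, hDl⟩⟩
  obtain ⟨x, hx⟩ := hx
  by_cases hxY : x ∈ Y
  · apply hne
    refine ⟨⟨x, hxY⟩, fun K hK => ?_⟩
    obtain ⟨D, hD, hDK⟩ := (isClosed_induced_iff).1 (hF.1 K hK)
    have h1 : x ∈ D := hx D hD ⟨K, hK, by rw [hDK]⟩
    rw [← hDK]
    exact h1
  · have h1 : Lg 𝓕 ({x}ᶜ : Set X) := by
      refine ⟨univ, univ_mem hF, fun y _ hy => hxY ?_⟩
      have : (y : X) = x := hy
      rw [← this]
      exact y.2
    obtain ⟨C', hC', hC'c, hC'l⟩ := exists_compact hR hF hcip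
      (compl_meas isClosed_singleton) h1
    exact hC' (hx C' hC'c.isClosed hC'l) rfl

end Pool.Agent.Lib.MP_8c874d_gt.Q2
end

section
set_option autoImplicit false

namespace Pool.Agent.Lib.MP_8c874d_gt.Zfc

/-- ZFC: a compact space with (H) and a subspace which is not alpha-realcompact. -/
theorem main_zfc : SpecFN :=
  specFN specOM specVX specCQ specCB (specTH (specBL specMN specMC specTR))
    (specMX specCB specTR specLC)

end Pool.Agent.Lib.MP_8c874d_gt.Zfc
end
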