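import Pool.Agent.Lib.MP_8c874d_gt.Zfc.Defs

set_option autoImplicit false

/-!
MP_8c874d_gt: a ZFC counterexample for Q1 and Q2, the modules.
Text with all proofs: /team-store/MP_8c874d_gt_ZFC.md
Module XXX: file Zfc/XXX.lean, `theorem specXXX : SpecXXX`, own lemmas in namespace
Pool.Agent.Lib.MP_8c874d_gt.Zfc.XXXM.
-/

namespace Pool.Agent.Lib.MP_8c874d_gt.Zfc

open Set

/-- OM: `ω₁` and a stationary set with stationary complement. Proof: `Ω` = the ordinals below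
`ω₁` as a type in `Type` (e.g. `(Cardinal.aleph 1).ord.toType` or `.ToType`); `NoUf Ω` by an
injection into `Set ℕ`. `e : Ω → Set ℕ` injective. If for every `n` one of `{x | n ∈ e x}` and its
complement is not stationary, witness `f n`, let `f x` be above all `f n x` and `x`; there are two
`f`-closed points (iterate `f`, take suprema; countable sets are bounded), both have the same image
under `e`. Remove the minimum from `A`. -/
def SpecOM : Prop :=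
  ∃ (Ω : Type) (_ : LinearOrder Ω), Om1 Ω ∧ NoUf Ω ∧
    ∃ A : Set Ω, Stat A ∧ Stat Aᶜ ∧ ∀ a ∈ A, ∃ x, x < a

/-- VX: vertex systems exist. Proof: inductive type
`Vx | bot | mk (k : ℕ) (d : Ω) (c : Set Ω) (l : Set (Set ℕ)) (g : ℕ → Vx)` (or a `WType`),
`valid` by recursion, `dn (mk k d c l g) = {g n | g n ≠ bot}`, `Yl v = {z ⊆ dn v | {n | g n ∈ z} ∈ l}`;
in `ext` take `l = {{n | g n ∈ z} | z ∈ Z, z ⊆ g}` (subsets of `g` are determined by their
index sets). `NoUf`: `#Vx ≤ #(Set (Set Ω))` by `WType.cardinalMk_le_of_le'`, and `NoUf.set`. -/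
def SpecVX : Prop :=
  ∀ (Ω : Type) [LinearOrder Ω], Om1 Ω → NoUf Ω → ∀ A : Set Ω,
    ∃ V : Type, NoUf V ∧ Nonempty (VS Ω A V)

/-- CQ: cliques are countable. Proof: levels are injective on a clique `z`. If `z` is not
countable, the levels are unbounded (`Iic x` is countable): `f x` = a level of `z` above `x`. Take an
`f`-closed `d ∉ A`, `w ∈ z` with `d < lev w`; the elements of `z` of level `< d` are in `dn w`, their
levels are in `c w`, so `d` is a limit point of `c w`, `d ∈ c w ⊆ A`. -/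
def SpecCQ : Prop :=
  ∀ (Ω : Type) [LinearOrder Ω] (A : Set Ω) (V : Type) (S : VS Ω A V), Om1 Ω → Stat Aᶜ →
    ∀ z : Set V, S.Clq z → z.Countable

/-- `N` is a countable set of vertices, closed for the basic tasks `B`, with levels below `d`. -/
def Hull {Ω V : Type} [LinearOrder Ω] {A : Set Ω} (S : VS Ω A V)
    (B : Finset V → ℕ → Task Ω V) (d : Ω) (N : Set V) : Prop :=
  N.Countable ∧ (∀ u ∈ N, S.lev u < d ∧ S.dn u ⊆ N) ∧
    ∀ h : Finset V, (h : Set V) ⊆ N → ∀ n,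
      (∀ φ, B h n = Task.clo φ → ∀ x, x < d → φ x < d) ∧
      ∀ H, B h n = Task.fam H → (∀ x, S.Adm (H x) ∧ S.Abv x (H x)) → ∀ x, x < d → H x ⊆ N

/-- MN: hulls exist. Proof: by well-founded recursion `N x = y0 ∪ ⋃ y < x, Step y (N y)`, where
`Step y M` = `M`, all `dn u`, `u ∈ M`, all `H x'`, `x' ≤ y`, for `B h n = fam H`, `h ⊆ M` finite
(with the side condition); all countable (cliques `H x'` with a top `w` are contained in
`insert w (dn w)`). `f y` is above `y`, all levels in `Step y (N y)` and `y0`, and all `φ x'`,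
`x' ≤ y`, for `B h n = clo φ`, `h ⊆ N y`. Take `d ∈ A` closed under `f` and `N d`. -/
def SpecMN : Prop :=
  ∀ (Ω : Type) [LinearOrder Ω] (A : Set Ω) (V : Type) (S : VS Ω A V), Om1 Ω → Stat A →
    ∀ (B : Finset V → ℕ → Task Ω V) (y0 : Set V), S.Adm y0 →
      ∃ (d : Ω) (N : Set V), d ∈ A ∧ (∃ x, x < d) ∧ y0 ⊆ N ∧ Hull S B d N

/-- The output of the master lemma. -/
def Out {Ω V : Type} [LinearOrder Ω] {A : Set Ω} (S : VS Ω A V)
    (B : Finset V → ℕ → Task Ω V) (y0 : Set V) (d : Ω) (c : Set Ω) (g : Set V) : Prop :=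
  (d ∈ c ∧ c ⊆ A ∧ (∀ x ∈ c, x ≤ d) ∧ Cl c) ∧ g.Countable ∧
    (∀ u ∈ g, S.lev u < d ∧ S.lev u ∈ c ∧ ∃ γ, γ < S.lev u ∧ ∀ x ∈ S.c u, γ < x → x ∈ c) ∧
    y0 ⊆ g ∧ ∀ h : Finset V, (h : Set V) ⊆ g → ∀ n, S.SatB d g (B h n)

/-- MC: from a hull to the output of the master lemma, by conditions `(h, c', r)`:
`h ⊆ N`, `c'` closed, `c' ⊆ A`, `c' ⊆ Iic r`, `r < d`, `lev u ∈ c'` and a tail of `c u` in `c'` for
`u ∈ h`. Start: `y0`, `c (top y0)`, or `∅, ∅`. Steps for all `(h', n, γ)` (`h' ⊆ N` finite, `γ < d`),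
each infinitely often: `r := max r γ`; if `h' ⊆ h`: `fam H`: `x = r`, add `H x` to `h`, add
`c w ∩ Ioi x` to `c'`, `w` the top of `H x`, `r := max (lev w) x`; `pair u H`, `u ∈ h`, `γ < lev u`:
a tail `c u ∩ Ioi g0` is in `c'`, `g0 < lev u`; take `n` with `H n` above `max g0 γ` and add `H n` to
`h`. All elements of `A` are not minimal. -/
def SpecMC : Prop :=
  ∀ (Ω : Type) [LinearOrder Ω] (A : Set Ω) (V : Type) (S : VS Ω A V), Om1 Ω →
    (∀ a ∈ A, ∃ x, x < a) → ∀ (B : Finset V → ℕ → Task Ω V) (y0 : Set V), S.Adm y0 →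
      ∀ (d : Ω) (N : Set V), d ∈ A → (∃ x, x < d) → y0 ⊆ N → Hull S B d N →
        ∃ (c : Set Ω) (g : Set V), Out S B y0 d c g

/-- LC: Lemma C. -/
def SpecLC : Prop :=
  ∀ (Ω : Type) [LinearOrder Ω] (A : Set Ω) (V : Type) (S : VS Ω A V), Om1 Ω →
    (∀ a ∈ A, ∃ x, x < a) → ∀ (D : ℕ → Set (Ω → Set (Set V))) (P : V → Prop) (Q : Code V),
      S.Acc D P Q ∅ → ∃ γ, ∀ z, S.Adm z → S.Abv γ z → S.Acc D P Q z

/-- CB: countably many tests can be combined. -/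
def SpecCB : Prop :=
  ∀ (Ω : Type) [LinearOrder Ω] (A : Set Ω) (V : Type) (S : VS Ω A V)
    (T : ℕ → Finset V → ℕ → Task Ω V), ∃ T' : Finset V → ℕ → Task Ω V,
      (∀ D : ℕ → Set (Ω → Set (Set V)), (∀ i, DTest D (T i)) → DTest D T') ∧
      ∀ a, S.Gen T' a ↔ ∀ i, S.Gen (T i) a

/-- TR: comparison of `DD` and `Dlt k`. (Replace the tasks `loc j Z`, `k ≤ j`, by `clo id`; they hold
at all `a` with `fib a < k`.) -/
def SpecTR : Prop :=
  ∀ (Ω : Type) [LinearOrder Ω] (A : Set Ω) (V : Type) (S : VS Ω A V),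
    (∀ k j, S.Dlt k j = if j < k then S.DD j else ∅) ∧
    ∀ T, DTest S.DD T → ∀ k, ∃ T', DTest (S.Dlt k) T' ∧ ∀ v, S.fib v < k → S.Gen T' v → S.Gen T v

/-- BL: the block lemma. -/
def SpecBL : Prop :=
  ∀ (Ω : Type) [LinearOrder Ω] (A : Set Ω) (V : Type) (S : VS Ω A V), Om1 Ω → Stat A →
    (∀ a ∈ A, ∃ x, x < a) → ∀ T, DTest S.DD T → ∀ y0 : Set V, S.Adm y0 →
      (∀ v ∈ y0, S.Gen T v) → ∀ k : ℕ,
        ∃ (z : Set V) (a : V), y0 ⊆ z ∧ S.Clq z ∧ (∀ v ∈ z, S.Gen T v) ∧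
          (∀ v ∈ z, v ∉ y0 → y0 ⊆ S.dn v) ∧ z ⊆ S.dn a ∧ S.fib a = k ∧ S.Gen T a ∧ z ∈ S.Yl a

/-- The points of the subspace `Y`. -/
def InY {Ω V : Type} [LinearOrder Ω] {A : Set Ω} (S : VS Ω A V) (y : Set V) : Prop :=
  S.Clq y ∧ ∀ k : ℕ, ∃ a ∈ y, S.fib a = k ∧ y ∩ S.dn a ∈ S.Yl a

/-- TH: thickness. Iterate BL: `y (k+1) = z ∪ {a}` from `y k`, with the fibre `k`; the union. -/
def SpecTH : Prop :=
  ∀ (Ω : Type) [LinearOrder Ω] (A : Set Ω) (V : Type) (S : VS Ω A V), Om1 Ω → Stat A →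
    (∀ a ∈ A, ∃ x, x < a) → ∀ T, DTest S.DD T → ∃ y : Set V, InY S y ∧ ∀ v ∈ y, S.Gen T v

/-- MX: the dichotomy behind maximality. If `N` is not null, then `Y \ O_N ⊆ O_M` for a null code
`M`. -/
def SpecMX : Prop :=
  ∀ (Ω : Type) [LinearOrder Ω] (A : Set Ω) (V : Type) (S : VS Ω A V), Om1 Ω →
    (∀ a ∈ A, ∃ x, x < a) → ∀ N : Code V, ¬ S.Null N →
      ∃ M : Code V, S.Null M ∧ ∀ y : Set V, InY S y → inO N y ∨ inO M y

/-- FN: the final assembly. -/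
def SpecFN : Prop :=
  ∃ (X : Type) (_ : TopologicalSpace X), CompactSpace X ∧ T2Space X ∧ ConditionH X ∧
    ¬ HereditarilyAlphaRealcompact X

end Pool.Agent.Lib.MP_8c874d_gt.Zfc
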